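import Pool.Agent.H912R3.Eq.Expo

/-!
# Equality in Ehrhart's volume inequality: the body is a simplex
-/

set_option autoImplicit false
set_option linter.unusedSectionVars false

open scoped Pointwise Topology
open Set MeasureTheory Filter

namespace Pool.Agent.H912R3.Ehr

variable {d : ℕ}

/-- strongly exposed points (farthest points) -/
def SE (K : Set (Fin d → ℝ)) : Set (Fin d → ℝ) :=
  {v | v ∈ K ∧ ∃ w : Fin d → ℝ, ∀ x ∈ K,
    ∑ i, w i * v i + (∑ i, (x i - v i) ^ 2) / 2 ≤ ∑ i, w i * x i}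

theorem SE_hull {K : Set (Fin d → ℝ)} (hK : IsCompact K) :
    K ⊆ closure (convexHull ℝ (SE K)) := by
  intro y hy
  by_contra hcon
  obtain ⟨g, u, hg1, hg2⟩ := geometric_hahn_banach_closed_point
    (convex_convexHull ℝ (SE K)).closure isClosed_closure hcon
  have hgs : ∀ x : Fin d → ℝ, g x = ∑ i, x i * g (fun j => if i = j then 1 else 0) := fun x =>
    LinearMap.pi_apply_eq_sum_univ (g : (Fin d → ℝ) →ₗ[ℝ] ℝ) x
  set γ : Fin d → ℝ := fun i => g (fun j => if i = j then 1 else 0) with hγ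
  have hgs' : ∀ x : Fin d → ℝ, g x = ∑ i, x i * γ i := hgs
  have hc1 : Continuous fun x : Fin d → ℝ => ∑ i, x i ^ 2 := by fun_prop
  obtain ⟨M, hM⟩ := hK.exists_bound_of_continuousOn hc1.continuousOn
  set η : ℝ := g y - u with hη
  have hη0 : 0 < η := by linarith
  have hM0 : 0 ≤ M := (norm_nonneg _).trans (hM y hy)
  set R : ℝ := M / η with hR
  have hR0 : 0 ≤ R := by positivity
  have hc2 : Continuous fun x : Fin d → ℝ => ∑ i, (x i + R * γ i) ^ 2 := by fun_prop
  obtain ⟨v, hvK, hv⟩ := hK.exists_isMaxOn ⟨y, hy⟩ hc2.continuousOn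
  have hv' : ∀ x ∈ K, ∑ i, (x i + R * γ i) ^ 2 ≤ ∑ i, (v i + R * γ i) ^ 2 := fun x hx => hv hx
  have hvE : v ∈ SE K := by
    refine ⟨hvK, fun i => -(v i + R * γ i), fun x hx => ?_⟩
    have h1 := hv' x hx
    have h2 : ∑ i, (x i + R * γ i) ^ 2 - ∑ i, (v i + R * γ i) ^ 2 =
        ∑ i, (x i - v i) ^ 2 + 2 * (∑ i, -(v i + R * γ i) * v i - ∑ i, -(v i + R * γ i) * x i) := by
      rw [← Finset.sum_sub_distrib, ← Finset.sum_sub_distrib, Finset.mul_sum,
        ← Finset.sum_add_distrib]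
      refine Finset.sum_congr rfl fun i _ => ?_
      ring
    linarith
  have h3 : g v < u := hg1 v (subset_closure (subset_convexHull ℝ _ hvE))
  have h4 := hv' y hy
  have hexp : ∀ x : Fin d → ℝ, ∑ i, (x i + R * γ i) ^ 2 =
      ∑ i, x i ^ 2 + 2 * R * g x + R ^ 2 * ∑ i, γ i ^ 2 := by
    intro x
    rw [hgs', Finset.mul_sum, Finset.mul_sum, ← Finset.sum_add_distrib, ← Finset.sum_add_distrib]
    refine Finset.sum_congr rfl fun i _ => ?_
    ring
  rw [hexp, hexp] at h4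
  have h5 : ∑ i, v i ^ 2 ≤ M := (le_abs_self _).trans (hM v hvK)
  have h6 : (0 : ℝ) ≤ ∑ i, y i ^ 2 := Finset.sum_nonneg fun i _ => sq_nonneg _
  have h7 : R * η = M := by rw [hR]; field_simp
  rcases hR0.eq_or_lt with h8 | h8
  · have hM00 : M = 0 := by rw [← h7, ← h8, zero_mul]
    have hv0 : ∀ x ∈ K, g x = 0 := by
      intro x hx
      have h9 : ∑ i, x i ^ 2 ≤ 0 := hM00 ▸ (le_abs_self _).trans (hM x hx)
      have h10 : ∀ i, x i = 0 := by
        intro i
        have := Finset.single_le_sum (f := fun i => (x i) ^ 2) (fun i _ => sq_nonneg _)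
          (Finset.mem_univ i)
        have h11 : (x i) ^ 2 ≤ 0 := this.trans h9
        exact pow_eq_zero_iff (two_ne_zero) |>.1 (le_antisymm h11 (sq_nonneg _))
      have : x = 0 := funext h10
      rw [this, map_zero]
    rw [hv0 v hvK] at h3
    rw [hv0 y hy] at hη
    linarith
  · have h9 : R * (g y - g v) > R * η := mul_lt_mul_of_pos_left (by rw [hη]; linarith) h8
    nlinarith

/-- the homothety lemma -/
theorem homothety_lemma {K : Set (Fin d → ℝ)} (hK : IsCompact K) (hKc : Convex ℝ K)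
    (h0 : (0 : Fin d → ℝ) ∈ interior K) {v : Fin d → ℝ} (hv : v ∈ K)
    {L : (Fin d → ℝ) →L[ℝ] ℝ} (hLv : L v = -d)
    (hdist : ∀ t : ℝ, 0 < t → t ≤ d + 1 →
        volume.real (K ∩ {x | d + L x < t}) = t ^ d / d.factorial)
    {s : ℝ} (hs0 : 0 < s) (hs1 : s < 1) {y : Fin d → ℝ} (hy : y ∈ K)
    (hys : d + L y < s * (d + 1)) : ∃ x ∈ K, y = s • x + (1 - s) • v := by
  by_contra hcon
  push Not at hcon
  have hd1 : (0 : ℝ) < d + 1 := by positivity
  set h : (Fin d → ℝ) → (Fin d → ℝ) := fun x => s • x + (1 - s) • v with hh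
  have hhc : Continuous h := by
    show Continuous fun x : Fin d → ℝ => s • x + (1 - s) • v
    fun_prop
  have hcl : IsClosed (h '' K) := (hK.image hhc).isClosed
  have hynot : y ∈ (h '' K)ᶜ := by
    rintro ⟨x, hx, hxy⟩
    exact hcon x hx hxy.symm
  have hyc : y ∈ closure (interior K) := by
    rw [hKc.closure_interior_eq_closure_of_nonempty_interior ⟨0, h0⟩]
    exact subset_closure hy
  have hHo : IsOpen {x : Fin d → ℝ | d + L x < s * (d + 1)} := isOpen_lt (by fun_prop) continuous_const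
  obtain ⟨z, hz1, hz2⟩ := mem_closure_iff.1 hyc _ (hcl.isOpen_compl.inter hHo) ⟨hynot, hys⟩
  set O : Set (Fin d → ℝ) := ((h '' K)ᶜ ∩ {x : Fin d → ℝ | d + L x < s * (d + 1)}) ∩ interior K with hO
  have hOo : IsOpen O := (hcl.isOpen_compl.inter hHo).inter isOpen_interior
  have hOpos : 0 < volume O := hOo.measure_pos volume ⟨z, hz1, hz2⟩
  have hOK : O ⊆ K := inter_subset_right.trans interior_subset
  have hOfin : volume O ≠ ⊤ := ((measure_mono hOK).trans_lt hK.measure_lt_top).ne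
  set N : Set (Fin d → ℝ) := h '' (K ∩ {x | d + L x < d + 1}) with hN
  have hNK : N ⊆ K ∩ {x | d + L x < s * (d + 1)} := by
    rintro _ ⟨x, ⟨hx, hx1⟩, rfl⟩
    refine ⟨hKc hx hv hs0.le (by linarith) (by ring), ?_⟩
    show (d : ℝ) + L (s • x + (1 - s) • v) < s * (d + 1)
    rw [map_add, map_smul, map_smul, smul_eq_mul, smul_eq_mul, hLv]
    have h1 : (d : ℝ) + L x < d + 1 := hx1
    nlinarith
  have hNvol : volume.real N = s ^ d * (((d : ℝ) + 1) ^ d / d.factorial) := by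
    have e1 : N = AffineMap.homothety v s '' (K ∩ {x | d + L x < d + 1}) := by
      rw [hN]
      refine image_congr fun x _ => ?_
      rw [AffineMap.homothety_apply, vsub_eq_sub, vadd_eq_add, hh]
      simp only [smul_sub, sub_smul, one_smul]
      abel
    rw [e1, measureReal_def, Measure.addHaar_image_homothety, ENNReal.toReal_mul,
      ENNReal.toReal_ofReal (abs_nonneg _), ← measureReal_def, hdist _ hd1 le_rfl,
      abs_of_nonneg (by positivity), Module.finrank_fintype_fun_eq_card, Fintype.card_fin]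
  have hdisj : Disjoint N O := by
    rw [Set.disjoint_left]
    rintro _ ⟨x, hx, rfl⟩ hO'
    exact hO'.1.1 ⟨x, hx.1, rfl⟩
  have hNfin : volume N ≠ ⊤ :=
    ((measure_mono (hNK.trans inter_subset_left)).trans_lt hK.measure_lt_top).ne
  have hun := measureReal_union (μ := volume) hdisj hOo.measurableSet hNfin hOfin
  have hsub : N ∪ O ⊆ K ∩ {x | d + L x < s * (d + 1)} :=
    union_subset hNK (fun x hx => ⟨hOK hx, hx.1.2⟩)
  have hmono := measureReal_mono (μ := volume) hsub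
    (((measure_mono inter_subset_left).trans_lt hK.measure_lt_top).ne)
  rw [hdist (s * (d + 1)) (by positivity) (by nlinarith), hun, hNvol, mul_pow] at hmono
  have hpos : 0 < volume.real O := ENNReal.toReal_pos hOpos.ne' hOfin
  have e : s ^ d * ((d : ℝ) + 1) ^ d / d.factorial = s ^ d * (((d : ℝ) + 1) ^ d / d.factorial) := by
    ring
  linarith

theorem L_eq_one {K : Set (Fin d → ℝ)} (hK : IsCompact K) (hKc : Convex ℝ K)
    (h0 : (0 : Fin d → ℝ) ∈ interior K) {v : Fin d → ℝ} (hv : v ∈ K)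
    {L : (Fin d → ℝ) →L[ℝ] ℝ} (hLv : L v = -d) (hL0 : ∀ x ∈ K, -d ≤ L x)
    (hL1 : ∀ x ∈ K, L x ≤ 1)
    (hdist : ∀ t : ℝ, 0 < t → t ≤ d + 1 →
        volume.real (K ∩ {x | d + L x < t}) = t ^ d / d.factorial)
    {y : Fin d → ℝ} (hy : y ∈ SE K) (hne : y ≠ v) : L y = 1 := by
  obtain ⟨hyK, w, hw⟩ := hy
  refine le_antisymm (hL1 y hyK) ?_
  by_contra hcon
  push Not at hcon
  have hd1 : (0 : ℝ) < d + 1 := by positivity
  have hly := hL0 y hyK
  set r : ℝ := (d + L y) / (d + 1) with hr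
  have hr1 : r < 1 := by rw [hr, div_lt_one hd1]; linarith
  have hr0 : 0 ≤ r := div_nonneg (by linarith) hd1.le
  have hrs : d + L y = r * (d + 1) := by rw [hr]; field_simp
  obtain ⟨x, hx, hxy⟩ := homothety_lemma hK hKc h0 hv hLv hdist (s := (r + 1) / 2)
    (by linarith) (by linarith) hyK (by rw [hrs]; nlinarith)
  set s : ℝ := (r + 1) / 2 with hs
  have hs0 : 0 < s := by rw [hs]; linarith
  have hs1 : s < 1 := by rw [hs]; linarith
  have h1 := hw x hx
  have h2 := hw v hv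
  have h3 : ∑ i, w i * y i = s * ∑ i, w i * x i + (1 - s) * ∑ i, w i * v i := by
    rw [Finset.mul_sum, Finset.mul_sum, ← Finset.sum_add_distrib]
    refine Finset.sum_congr rfl fun i _ => ?_
    have : y i = s * x i + (1 - s) * v i := congrFun hxy i
    rw [this]; ring
  have h4 : 0 ≤ ∑ i, (x i - y i) ^ 2 := Finset.sum_nonneg fun i _ => sq_nonneg _
  have h5 : 0 < ∑ i, (v i - y i) ^ 2 := by
    by_contra hc
    push Not at hc
    apply hne
    funext i
    have := Finset.single_le_sum (f := fun i => (v i - y i) ^ 2) (fun i _ => sq_nonneg _)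
      (Finset.mem_univ i)
    have h11 : (v i - y i) ^ 2 ≤ 0 := this.trans hc
    have := pow_eq_zero_iff (two_ne_zero) |>.1 (le_antisymm h11 (sq_nonneg _))
    linarith
  have h6 : s * (∑ i, w i * y i + (∑ i, (x i - y i) ^ 2) / 2) ≤ s * ∑ i, w i * x i :=
    mul_le_mul_of_nonneg_left h1 hs0.le
  have h7 : (1 - s) * (∑ i, w i * y i + (∑ i, (v i - y i) ^ 2) / 2) ≤ (1 - s) * ∑ i, w i * v i :=
    mul_le_mul_of_nonneg_left h2 (by linarith)
  have h8 : 0 ≤ s * ((∑ i, (x i - y i) ^ 2) / 2) := by positivity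
  have h9 : 0 < (1 - s) * ((∑ i, (v i - y i) ^ 2) / 2) := by
    have : 0 < 1 - s := by linarith
    positivity
  nlinarith

/-- an equality body is a simplex -/
theorem simplex_structure (hd : 1 ≤ d) {K : Set (Fin d → ℝ)} (hK : IsCompact K)
    (hKc : Convex ℝ K)
    (hz : ∀ i, ∫ x in K, x i = 0) (h0 : (0 : Fin d → ℝ) ∈ interior K)
    (hL : ∀ z : Fin d → ℤ, (fun i => (z i : ℝ)) ∈ interior K → z = 0)
    (hV : volume.real K = ((d : ℝ) + 1) ^ d / d.factorial) :
    ∃ L : Fin (d + 1) → (Fin d → ℝ) →L[ℝ] ℝ, (∀ x, ∑ i, L i x = 0) ∧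
      K = {x | ∀ i, L i x ≤ 1} := by
  classical
  have hd1 : (0 : ℝ) < d + 1 := by positivity
  have hex : ∀ v ∈ SE K, ∃ L : (Fin d → ℝ) →L[ℝ] ℝ, L v = -d ∧ (∀ x ∈ K, -d ≤ L x) ∧
      (∀ x ∈ K, L x ≤ 1) ∧
      ∀ t : ℝ, 0 < t → t ≤ d + 1 →
        volume.real (K ∩ {x | d + L x < t}) = t ^ d / d.factorial := by
    rintro v ⟨hv, w, hw⟩
    exact expo hd hK hKc hz h0 hL hV hv hw
  choose! Lf hLf using hex
  have hone : ∀ v ∈ SE K, ∀ y ∈ SE K, y ≠ v → Lf v y = 1 := by
    intro v hv y hy hne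
    obtain ⟨a1, a2, a3, a4⟩ := hLf v hv
    exact L_eq_one hK hKc h0 hv.1 a1 a2 a3 a4 hy hne
  have hhull := SE_hull hK
  have h0K : (0 : Fin d → ℝ) ∈ K := interior_subset h0
  -- values of `G` on `SE K`
  have hG : ∀ S : Finset (Fin d → ℝ), (S : Set (Fin d → ℝ)) ⊆ SE K → ∀ y ∈ SE K,
      ∑ v ∈ S, (1 - Lf v y) = if y ∈ S then (d : ℝ) + 1 else 0 := by
    intro S hS y hy
    split_ifs with hyS
    · rw [Finset.sum_eq_single y]
      · rw [(hLf y hy).1]; ring
      · intro v hv hne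
        rw [hone v (hS hv) y hy (Ne.symm hne), sub_self]
      · intro h; exact absurd hyS h
    · refine Finset.sum_eq_zero fun v hv => ?_
      rw [hone v (hS hv) y hy (fun h => hyS (h ▸ hv)), sub_self]
  -- finiteness
  have hcard : ∀ S : Finset (Fin d → ℝ), (S : Set (Fin d → ℝ)) ⊆ SE K → S.card ≤ d + 1 := by
    intro S hS
    have hclosed : IsClosed {x : Fin d → ℝ | ∑ v ∈ S, (1 - Lf v x) ≤ (d : ℝ) + 1} :=
      isClosed_le (by fun_prop) continuous_const
    have hconv : Convex ℝ {x : Fin d → ℝ | ∑ v ∈ S, (1 - Lf v x) ≤ (d : ℝ) + 1} := by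
      intro x hx y hy p r hp hr hpr
      have h1 : ∑ v ∈ S, (1 - Lf v x) ≤ (d : ℝ) + 1 := hx
      have h2 : ∑ v ∈ S, (1 - Lf v y) ≤ (d : ℝ) + 1 := hy
      show ∑ v ∈ S, (1 - Lf v (p • x + r • y)) ≤ (d : ℝ) + 1
      have e : ∑ v ∈ S, (1 - Lf v (p • x + r • y)) =
          p * ∑ v ∈ S, (1 - Lf v x) + r * ∑ v ∈ S, (1 - Lf v y) := by
        rw [Finset.mul_sum, Finset.mul_sum, ← Finset.sum_add_distrib]
        refine Finset.sum_congr rfl fun v _ => ?_
        rw [map_add, map_smul, map_smul, smul_eq_mul, smul_eq_mul]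
        linear_combination (-1 : ℝ) * hpr
      rw [e]
      calc p * ∑ v ∈ S, (1 - Lf v x) + r * ∑ v ∈ S, (1 - Lf v y)
          ≤ p * (d + 1) + r * (d + 1) := by gcongr
        _ = d + 1 := by rw [← add_mul, hpr, one_mul]
    have hsub : closure (convexHull ℝ (SE K)) ⊆ {x : Fin d → ℝ | ∑ v ∈ S, (1 - Lf v x) ≤ (d : ℝ) + 1} := by
      refine closure_minimal (convexHull_min (fun y hy => ?_) hconv) hclosed
      show ∑ v ∈ S, (1 - Lf v y) ≤ (d : ℝ) + 1
      rw [hG S hS y hy]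
      split_ifs
      · exact le_rfl
      · exact hd1.le
    have h1 : ∑ v ∈ S, (1 - Lf v (0 : Fin d → ℝ)) ≤ (d : ℝ) + 1 := hsub (hhull h0K)
    simp only [map_zero, sub_zero, Finset.sum_const, nsmul_eq_mul, mul_one] at h1
    exact_mod_cast h1
  have hfin : (SE K).Finite := by
    by_contra hinf
    obtain ⟨S, hS, hSc⟩ := Set.Infinite.exists_subset_card_eq hinf (d + 2)
    have := hcard S hS
    omega
  set S : Finset (Fin d → ℝ) := hfin.toFinset with hSdef
  have hS : (S : Set (Fin d → ℝ)) ⊆ SE K := by rw [hSdef, hfin.coe_toFinset]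
  have hSm : ∀ y ∈ SE K, y ∈ S := fun y hy => hfin.mem_toFinset.2 hy
  -- `G = 1` on `K`
  have hG1 : ∀ x ∈ K, ∑ v ∈ S, (1 - Lf v x) = (d : ℝ) + 1 := by
    have hclosed : IsClosed {x : Fin d → ℝ | ∑ v ∈ S, (1 - Lf v x) = (d : ℝ) + 1} :=
      isClosed_eq (by fun_prop) continuous_const
    have hconv : Convex ℝ {x : Fin d → ℝ | ∑ v ∈ S, (1 - Lf v x) = (d : ℝ) + 1} := by
      intro x hx y hy p r hp hr hpr
      have h1 : ∑ v ∈ S, (1 - Lf v x) = (d : ℝ) + 1 := hx
      have h2 : ∑ v ∈ S, (1 - Lf v y) = (d : ℝ) + 1 := hy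
      show ∑ v ∈ S, (1 - Lf v (p • x + r • y)) = (d : ℝ) + 1
      have e : ∑ v ∈ S, (1 - Lf v (p • x + r • y)) =
          p * ∑ v ∈ S, (1 - Lf v x) + r * ∑ v ∈ S, (1 - Lf v y) := by
        rw [Finset.mul_sum, Finset.mul_sum, ← Finset.sum_add_distrib]
        refine Finset.sum_congr rfl fun v _ => ?_
        rw [map_add, map_smul, map_smul, smul_eq_mul, smul_eq_mul]
        linear_combination (-1 : ℝ) * hpr
      rw [e, h1, h2, ← add_mul, hpr, one_mul]
    have hsub : closure (convexHull ℝ (SE K)) ⊆ {x : Fin d → ℝ | ∑ v ∈ S, (1 - Lf v x) = (d : ℝ) + 1} := by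
      refine closure_minimal (convexHull_min (fun y hy => ?_) hconv) hclosed
      show ∑ v ∈ S, (1 - Lf v y) = (d : ℝ) + 1
      rw [hG S hS y hy, if_pos (hSm y hy)]
    exact fun x hx => hsub (hhull hx)
  have hScard : S.card = d + 1 := by
    have h1 := hG1 0 h0K
    simp only [map_zero, sub_zero, Finset.sum_const, nsmul_eq_mul, mul_one] at h1
    exact_mod_cast h1
  -- `Q = id` on `K`
  have hQ : ∀ x ∈ K, ∑ v ∈ S, (1 - Lf v x) • v = ((d : ℝ) + 1) • x := by
    have hclosed : IsClosed {x : Fin d → ℝ | ∑ v ∈ S, (1 - Lf v x) • v = ((d : ℝ) + 1) • x} :=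
      isClosed_eq (by fun_prop) (by fun_prop)
    have hconv : Convex ℝ {x : Fin d → ℝ | ∑ v ∈ S, (1 - Lf v x) • v = ((d : ℝ) + 1) • x} := by
      intro x hx y hy p r hp hr hpr
      have h1 : ∑ v ∈ S, (1 - Lf v x) • v = ((d : ℝ) + 1) • x := hx
      have h2 : ∑ v ∈ S, (1 - Lf v y) • v = ((d : ℝ) + 1) • y := hy
      show ∑ v ∈ S, (1 - Lf v (p • x + r • y)) • v = ((d : ℝ) + 1) • (p • x + r • y)
      have e : ∑ v ∈ S, (1 - Lf v (p • x + r • y)) • v =
          p • ∑ v ∈ S, (1 - Lf v x) • v + r • ∑ v ∈ S, (1 - Lf v y) • v := by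
        rw [Finset.smul_sum, Finset.smul_sum, ← Finset.sum_add_distrib]
        refine Finset.sum_congr rfl fun v _ => ?_
        rw [smul_smul, smul_smul, ← add_smul]
        congr 1
        rw [map_add, map_smul, map_smul, smul_eq_mul, smul_eq_mul]
        linear_combination (-1 : ℝ) * hpr
      rw [e, h1, h2, smul_add, smul_comm p, smul_comm r]
    have hsub : closure (convexHull ℝ (SE K)) ⊆
        {x : Fin d → ℝ | ∑ v ∈ S, (1 - Lf v x) • v = ((d : ℝ) + 1) • x} := by
      refine closure_minimal (convexHull_min (fun y hy => ?_) hconv) hclosed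
      show ∑ v ∈ S, (1 - Lf v y) • v = ((d : ℝ) + 1) • y
      rw [Finset.sum_eq_single y]
      · rw [(hLf y hy).1]; congr 1; ring
      · intro v hv hne
        rw [hone v (hS hv) y hy (Ne.symm hne), sub_self, zero_smul]
      · intro h; exact absurd (hSm y hy) h
    exact fun x hx => hsub (hhull hx)
  -- small multiples lie in `K`
  have hsmall : ∀ x : Fin d → ℝ, ∃ c : ℝ, 0 < c ∧ c • x ∈ K := by
    intro x
    have hc : Tendsto (fun c : ℝ => c • x) (𝓝 0) (𝓝 ((0 : ℝ) • x)) :=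
      (continuous_id.smul continuous_const).tendsto 0
    rw [zero_smul] at hc
    have h1 := hc.eventually (mem_interior_iff_mem_nhds.1 h0)
    obtain ⟨η, hη, h2⟩ := Metric.eventually_nhds_iff.1 h1
    refine ⟨η / 2, by positivity, h2 ?_⟩
    rw [Real.dist_eq, sub_zero, abs_of_pos (by positivity)]
    linarith
  have hsumL : ∀ x : Fin d → ℝ, ∑ v ∈ S, Lf v x = 0 := by
    intro x
    obtain ⟨c, hc, hcK⟩ := hsmall x
    have h1 := hG1 _ hcK
    rw [Finset.sum_sub_distrib, Finset.sum_const, nsmul_eq_mul, mul_one, hScard] at h1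
    push_cast at h1
    have h2 : ∑ v ∈ S, Lf v (c • x) = c * ∑ v ∈ S, Lf v x := by
      rw [Finset.mul_sum]
      refine Finset.sum_congr rfl fun v _ => ?_
      rw [map_smul, smul_eq_mul]
    rw [h2] at h1
    have h3 : c * ∑ v ∈ S, Lf v x = 0 := by linarith
    rcases mul_eq_zero.1 h3 with h | h
    · exact absurd h hc.ne'
    · exact h
  have hQ0 : ∑ v ∈ S, v = 0 := by
    have h1 := hQ 0 h0K
    simpa using h1
  have hQall : ∀ x : Fin d → ℝ, ∑ v ∈ S, (1 - Lf v x) • v = ((d : ℝ) + 1) • x := by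
    intro x
    obtain ⟨c, hc, hcK⟩ := hsmall x
    have h1 := hQ _ hcK
    have h2 : ∑ v ∈ S, (1 - Lf v (c • x)) • v = c • ∑ v ∈ S, (1 - Lf v x) • v := by
      have e1 : ∀ u : Fin d → ℝ, ∑ v ∈ S, (1 - Lf v u) • v = - ∑ v ∈ S, (Lf v u) • v := by
        intro u
        simp only [sub_smul, one_smul, Finset.sum_sub_distrib, hQ0, zero_sub]
      rw [e1, e1, smul_neg, Finset.smul_sum]
      congr 1
      refine Finset.sum_congr rfl fun v _ => ?_
      rw [map_smul, smul_eq_mul, smul_smul]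
    rw [h2, smul_comm] at h1
    exact smul_right_injective _ hc.ne' h1
  -- the equivalence with `Fin (d + 1)`
  let e := S.equivFinOfCardEq hScard
  refine ⟨fun i => Lf (e.symm i), ?_, ?_⟩
  · intro x
    rw [Equiv.sum_comp e.symm (fun v : S => Lf (v : Fin d → ℝ) x), Finset.sum_coe_sort S (fun v => Lf v x)]
    exact hsumL x
  · ext x
    constructor
    · intro hx i
      exact (hLf _ (hS (e.symm i).2)).2.2.1 x hx
    · intro hx
      have hx' : ∀ v ∈ S, Lf v x ≤ 1 := by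
        intro v hv
        have h1 : Lf (e.symm (e ⟨v, hv⟩)) x ≤ 1 := hx (e ⟨v, hv⟩)
        rwa [Equiv.symm_apply_apply] at h1
      have h1 : x = ∑ v ∈ S, ((1 - Lf v x) / (d + 1)) • v := by
        have h2 := hQall x
        have h3 : x = ((d : ℝ) + 1)⁻¹ • (((d : ℝ) + 1) • x) := by
          rw [smul_smul, inv_mul_cancel₀ hd1.ne', one_smul]
        rw [← h2, Finset.smul_sum] at h3
        rw [h3]
        refine Finset.sum_congr rfl fun v _ => ?_
        rw [← h3, smul_smul]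
        congr 1
        rw [inv_mul_eq_div]
      rw [h1]
      refine hKc.sum_mem (fun v hv => ?_) ?_ (fun v hv => (hS hv).1)
      · exact div_nonneg (by linarith [hx' v hv]) hd1.le
      · rw [← Finset.sum_div, Finset.sum_sub_distrib, hsumL, Finset.sum_const, nsmul_eq_mul,
          hScard, mul_one, sub_zero]
        push_cast
        exact div_self hd1.ne'

end Pool.Agent.H912R3.Ehr
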