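import Pool.Agent.H912R3.Eq.Top

/-!
# Equality in Ehrhart's volume inequality: the affine majorant
-/

set_option autoImplicit false
set_option linter.unusedSectionVars false

open MvPolynomial
open scoped Pointwise Topology
open Set MeasureTheory Filter

namespace Pool.Agent.H912R3.Ehr

variable {d : ℕ} {Γ : Type} [AddCommMonoid Γ] [LinearOrder Γ] [IsOrderedCancelAddMonoid Γ]

theorem Ach.closure_convex {Ψ : (Fin d →₀ ℕ) →+ Γ} (hΨ : Function.Injective Ψ)
    {K : Set (Fin d → ℝ)} (hK : Convex ℝ K) (hKn : K.Nonempty) {B : ℕ} :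
    Convex ℝ (closure (Ach Ψ K B)) := by
  intro x hx y hy p r hp hr hpr
  have hq : ∀ a b : ℕ, 1 ≤ a + b →
      ((a : ℝ) / (a + b : ℕ)) • x + ((b : ℝ) / (a + b : ℕ)) • y ∈ closure (Ach Ψ K B) := by
    intro a b hab
    have hc : Continuous (Function.uncurry (fun (u v : (Fin d → ℝ) × ℝ) =>
      ((a : ℝ) / (a + b : ℕ)) • u + ((b : ℝ) / (a + b : ℕ)) • v)) := by
      unfold Function.uncurry
      fun_prop
    exact map_mem_closure₂ (f := fun (u v : (Fin d → ℝ) × ℝ) =>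
      ((a : ℝ) / (a + b : ℕ)) • u + ((b : ℝ) / (a + b : ℕ)) • v) hc hx hy
      (fun u hu v hv => Ach.comb hΨ hK hKn hu hv a b hab)
  have hfl : ∀ n : ℕ, ⌊p * n⌋₊ ≤ n := by
    intro n
    have h1 : p * (n : ℝ) ≤ n := by nlinarith [(Nat.cast_nonneg n : (0 : ℝ) ≤ n)]
    exact_mod_cast (Nat.floor_le (by positivity : 0 ≤ p * (n : ℝ))).trans h1
  have h1 : Tendsto (fun n : ℕ => ((⌊p * n⌋₊ : ℕ) : ℝ) / n) atTop (𝓝 p) :=
    (tendsto_nat_floor_mul_div_atTop hp).comp tendsto_natCast_atTop_atTop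
  have h2 : Tendsto (fun n : ℕ => (((n - ⌊p * n⌋₊ : ℕ) : ℕ) : ℝ) / n) atTop (𝓝 r) := by
    have h3 : Tendsto (fun n : ℕ => 1 - ((⌊p * n⌋₊ : ℕ) : ℝ) / n) atTop (𝓝 (1 - p)) :=
      tendsto_const_nhds.sub h1
    have e : 1 - p = r := by linarith
    rw [e] at h3
    refine h3.congr' ?_
    filter_upwards [eventually_ge_atTop 1] with n hn
    have hn' : (n : ℝ) ≠ 0 := by positivity
    rw [Nat.cast_sub (hfl n), sub_div, div_self hn']
  have h3 := (h1.smul_const x).add (h2.smul_const y)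
  refine isClosed_closure.mem_of_tendsto h3 ?_
  filter_upwards [eventually_ge_atTop 1] with n hn
  have h4 := hq ⌊p * n⌋₊ (n - ⌊p * n⌋₊) (by have := hfl n; omega)
  have e : ⌊p * n⌋₊ + (n - ⌊p * n⌋₊) = n := by have := hfl n; omega
  rwa [e] at h4

theorem disc1 {Ψ : (Fin d →₀ ℕ) →+ Γ} (hΨ : Function.Injective Ψ) {K : Set (Fin d → ℝ)}
    (hKc : Convex ℝ K)
    (hL : ∀ z : Fin d → ℤ, (fun i => (z i : ℝ)) ∈ interior K → z = 0)
    {k B : ℕ} (hk : 1 ≤ k) {ε δ : ℝ} (hε : 0 < ε) (hε1 : ε < 1)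
    (hδ : 0 < δ) (hball : Metric.ball (0 : Fin d → ℝ) δ ⊆ K)
    {l : Fin d →₀ ℕ} {j : ℕ} {s : MvPolynomial (Fin d) (ZMod 2)} (hT : Top Ψ s l)
    (hS : Supp (shift K B) k s) (hV : Van j s)
    (hc : ‖pt k B l‖ < ε * δ)
    (e q a : ℕ) (hq : q = 2 ^ e) (ha : (a : ℝ) * k ≤ (1 - ε) * q) :
    a * j ≤ d * (q - 1) := by
  have : Fact (Nat.Prime 2) := ⟨Nat.prime_two⟩
  set c : Fin d → ℝ := pt k B l with hcdef
  have hk' : (0 : ℝ) < k := by positivity
  have h0 : (0 : Fin d → ℝ) ∈ K := hball (Metric.mem_ball_self hδ)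
  have hTa := hT.pow hΨ a
  have hSa := hS.pow (shift_convex hKc B) (shift_nonempty ⟨0, h0⟩ B) a
  have huniq : ∀ m ∈ (s ^ a).support, cls q m = cls q (a • l) → m = a • l := by
    intro m hm0 hcl
    obtain ⟨y, hy, hym⟩ := hSa m hm0
    have hyK : (y - fun _ => (B : ℝ)) ∈ K := hy
    set Y : Fin d → ℝ := y - (fun _ => (B : ℝ)) with hY
    have hq0 : 0 < q := by rw [hq]; positivity
    have hq' : (0 : ℝ) < q := by exact_mod_cast hq0
    have hΛc : ∀ i, (l i : ℝ) = k * (c i + B) := by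
      intro i
      have h1 : c i = (k : ℝ)⁻¹ * (l i : ℝ) - B := rfl
      rw [h1]
      field_simp
      ring
    have hdiv : ∀ i, ∃ z : ℤ, ((m i : ℤ) - (a * l i : ℕ) : ℤ) = q * z := by
      intro i
      have h1 : (m i : ZMod q) = ((a * l i : ℕ) : ZMod q) := congrFun hcl i
      have h2 : (((m i : ℤ) - ((a * l i : ℕ) : ℤ) : ℤ) : ZMod q) = 0 := by
        rw [Int.cast_sub, Int.cast_natCast, Int.cast_natCast, h1, sub_self]
      rw [ZMod.intCast_zmod_eq_zero_iff_dvd] at h2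
      exact h2
    choose z hz using hdiv
    have hzr : (fun i => (z i : ℝ)) = ((a : ℝ) * k / q) • (Y - c) := by
      funext i
      have h1 : ((m i : ℝ) - a * l i) = q * z i := by
        have := hz i
        have h2 : (((m i : ℤ) - ((a * l i : ℕ) : ℤ) : ℤ) : ℝ) = ((q * z i : ℤ) : ℝ) := by rw [this]
        push_cast at h2
        exact h2
      have h3 : (m i : ℝ) = a * k * y i := by
        have := congrFun hym i
        simp only [Pi.smul_apply, smul_eq_mul, toR] at this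
        rw [← this]; push_cast; ring
      have h4 : Y i = y i - B := rfl
      simp only [Pi.smul_apply, Pi.sub_apply, smul_eq_mul]
      rw [div_mul_eq_mul_div, eq_div_iff hq'.ne', mul_comm (z i : ℝ), ← h1, h3, hΛc i, h4]
      ring
    set θ : ℝ := (a : ℝ) * k / q with hθ
    have hθ0 : 0 ≤ θ := by positivity
    have hθ1 : θ ≤ 1 - ε := by
      rw [hθ, div_le_iff₀ hq']
      linarith
    have hint : (fun i => (z i : ℝ)) ∈ interior K := by
      rw [hzr]
      have h1 : 0 < 1 - θ := by linarith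
      have h2 : θ • (Y - c) = θ • Y + (1 - θ) • (-(θ / (1 - θ)) • c) := by
        rw [smul_smul, mul_neg, mul_div_cancel₀ _ h1.ne', smul_sub, neg_smul]
        abel
      rw [h2]
      have h3 : (-(θ / (1 - θ)) • c) ∈ interior K := by
        have hb : Metric.ball (0 : Fin d → ℝ) δ ⊆ interior K :=
          interior_maximal hball Metric.isOpen_ball
        apply hb
        rw [mem_ball_zero_iff, norm_smul, norm_neg, Real.norm_eq_abs, abs_of_nonneg (by positivity)]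
        have h4 : θ / (1 - θ) ≤ 1 / ε := by
          apply div_le_div₀ zero_le_one (by linarith) hε (by linarith)
        calc θ / (1 - θ) * ‖c‖ ≤ 1 / ε * ‖c‖ := mul_le_mul_of_nonneg_right h4 (norm_nonneg _)
          _ < 1 / ε * (ε * δ) := by
              apply mul_lt_mul_of_pos_left hc (by positivity)
          _ = δ := by field_simp
      exact hKc.combo_self_interior_mem_interior hyK h3 hθ0 h1 (by ring)
    have hz0 := hL z hint
    ext i
    have h1 := hz i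
    rw [hz0] at h1
    simp only [Pi.zero_apply, mul_zero] at h1
    have h2 : (m i : ℤ) = ((a * l i : ℕ) : ℤ) := by linarith
    have h3 : m i = a * l i := by exact_mod_cast h2
    rw [h3]
    rfl
  by_contra hcon
  push Not at hcon
  have hfold : fold q (cls q (a • l)) (s ^ a) = coeff (a • l) (s ^ a) :=
    fold_apply q _ _ _ rfl huniq
  have hz : fold q (cls q (a • l)) (s ^ a) = 0 :=
    fold_eq_zero (p := 2) e q hq _ _ ((hV.pow a).mono (by omega))
  exact (mem_support_iff.1 hTa.1) (by rw [← hfold, hz])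

theorem Ach.bound {Ψ : (Fin d →₀ ℕ) →+ Γ} (hΨ : Function.Injective Ψ) {K : Set (Fin d → ℝ)}
    (hKc : Convex ℝ K)
    (hL : ∀ z : Fin d → ℤ, (fun i => (z i : ℝ)) ∈ interior K → z = 0)
    {B : ℕ} {ε δ : ℝ} (hε : 0 < ε) (hε1 : ε < 1)
    (hδ : 0 < δ) (hball : Metric.ball (0 : Fin d → ℝ) δ ⊆ K) {x : (Fin d → ℝ) × ℝ}
    (hx : x ∈ Ach Ψ K B) (hxn : ‖x.1‖ < ε * δ) : (1 - ε) * x.2 ≤ d := by
  obtain ⟨k, hk, l, j, s, hT, hS, hV, h1, h2⟩ := hx
  have hk' : (0 : ℝ) < k := by positivity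
  rw [h1] at hxn
  suffices h : (1 - ε) * ((j : ℝ) / k) ≤ d from
    (mul_le_mul_of_nonneg_left h2 (by linarith)).trans h
  by_contra hcon
  push Not at hcon
  set κ : ℝ := (1 - ε) * ((j : ℝ) / k) - d with hκ
  have hκ0 : 0 < κ := by linarith
  have hall : ∀ e : ℕ, (2 : ℝ) ^ e * κ ≤ j := by
    intro e
    set a : ℕ := ⌊(1 - ε) * (2 : ℝ) ^ e / k⌋₊ with ha
    have hnn : 0 ≤ (1 - ε) * (2 : ℝ) ^ e / k := by
      have : 0 ≤ 1 - ε := by linarith
      positivity
    have ha1 : (a : ℝ) ≤ (1 - ε) * (2 : ℝ) ^ e / k := Nat.floor_le hnn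
    have ha2 : (1 - ε) * (2 : ℝ) ^ e / k - 1 < a := by
      have := Nat.lt_floor_add_one ((1 - ε) * (2 : ℝ) ^ e / k)
      linarith
    have h3 := disc1 hΨ hKc hL hk hε hε1 hδ hball hT hS hV hxn e (2 ^ e) a rfl (by
      rw [le_div_iff₀ (by positivity)] at ha1
      push_cast
      linarith)
    have h4 : (a : ℝ) * j ≤ d * (2 : ℝ) ^ e := by
      have h5 : ((a * j : ℕ) : ℝ) ≤ ((d * (2 ^ e - 1) : ℕ) : ℝ) := by exact_mod_cast h3
      have h6 : ((d * (2 ^ e - 1) : ℕ) : ℝ) ≤ d * (2 : ℝ) ^ e := by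
        have : d * (2 ^ e - 1) ≤ d * 2 ^ e := Nat.mul_le_mul_left _ (Nat.sub_le _ _)
        exact_mod_cast this
      push_cast at h5
      push_cast at h6
      linarith
    have h5 : ((1 - ε) * (2 : ℝ) ^ e / k - 1) * j ≤ d * (2 : ℝ) ^ e :=
      (mul_le_mul_of_nonneg_right ha2.le (Nat.cast_nonneg _)).trans h4
    have h6 : (2 : ℝ) ^ e * κ = (1 - ε) * (2 : ℝ) ^ e / k * j - d * (2 : ℝ) ^ e := by
      rw [hκ]; ring
    rw [h6]
    linarith
  obtain ⟨e, he⟩ := pow_unbounded_of_one_lt ((j : ℝ) / κ) (one_lt_two : (1 : ℝ) < 2)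
  rw [div_lt_iff₀ hκ0] at he
  exact absurd (hall e) (not_le.2 he)

theorem Ach.zero_mem (Ψ : (Fin d →₀ ℕ) →+ Γ) {K : Set (Fin d → ℝ)}
    {B : ℕ} (hB : ∀ x ∈ K, ∀ i, |x i| ≤ B) {x : Fin d → ℝ} (hx : x ∈ interior K) {t : ℝ}
    (ht : t ≤ 0) : (x, t) ∈ closure (Ach Ψ K B) := by
  classical
  have hnn : ∀ i, 0 ≤ x i + B := by
    intro i
    have := (abs_le.1 (hB x (interior_subset hx) i)).1
    linarith
  let l : ℕ → Fin d →₀ ℕ := fun k => Finsupp.equivFunOnFinite.symm fun i => ⌊(x i + B) * k⌋₊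
  have hlim : Tendsto (fun k : ℕ => pt k B (l k)) atTop (𝓝 x) := by
    rw [tendsto_pi_nhds]
    intro i
    have h1 : Tendsto (fun n : ℕ => ((⌊(x i + B) * n⌋₊ : ℕ) : ℝ) / n - B) atTop
        (𝓝 (x i + B - B)) :=
      ((tendsto_nat_floor_mul_div_atTop (hnn i)).comp tendsto_natCast_atTop_atTop).sub_const _
    rw [add_sub_cancel_right] at h1
    refine h1.congr fun n => ?_
    show _ = (n : ℝ)⁻¹ * ((⌊(x i + B) * n⌋₊ : ℕ) : ℝ) - B
    rw [div_eq_inv_mul]
  have hlim2 : Tendsto (fun k : ℕ => (pt k B (l k), t)) atTop (𝓝 (x, t)) :=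
    hlim.prodMk_nhds tendsto_const_nhds
  refine mem_closure_of_tendsto hlim2 ?_
  have h2 : ∀ᶠ k : ℕ in atTop, pt k B (l k) ∈ interior K :=
    hlim.eventually (isOpen_interior.mem_nhds hx)
  filter_upwards [h2, eventually_ge_atTop 1] with k hk1 hk
  refine ⟨k, hk, l k, 0, monomial (l k) 1, ?_, ?_, fun _ hm => absurd hm (Nat.not_lt_zero _), rfl, ?_⟩
  · constructor
    · rw [mem_support_iff, coeff_monomial, if_pos rfl]
      exact one_ne_zero
    · intro m hm
      have := support_monomial_subset hm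
      rw [Finset.mem_singleton] at this
      rw [this]
  · rw [supp_iff hk]
    intro m hm
    have := support_monomial_subset hm
    rw [Finset.mem_singleton] at this
    rw [this]
    exact interior_subset hk1
  · simpa using ht

/-- the affine majorant -/
theorem exists_slope {Ψ : (Fin d →₀ ℕ) →+ Γ} (hΨ : Function.Injective Ψ) {K : Set (Fin d → ℝ)}
    (hKc : Convex ℝ K) (h0 : (0 : Fin d → ℝ) ∈ interior K)
    (hL : ∀ z : Fin d → ℤ, (fun i => (z i : ℝ)) ∈ interior K → z = 0)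
    {B : ℕ} (hB : ∀ x ∈ K, ∀ i, |x i| ≤ B) :
    ∃ L : (Fin d → ℝ) →L[ℝ] ℝ, (∀ x ∈ Ach Ψ K B, x.2 ≤ d + L x.1) ∧
      ∀ x ∈ interior K, 0 ≤ d + L x := by
  obtain ⟨δ, hδ, hball⟩ := Metric.mem_nhds_iff.1 (mem_interior_iff_mem_nhds.1 h0)
  have hKn : K.Nonempty := ⟨0, interior_subset h0⟩
  have hd0 : (0 : ℝ) ≤ d := Nat.cast_nonneg d
  set S := closure (Ach Ψ K B) with hS
  have hSc : Convex ℝ S := Ach.closure_convex hΨ hKc hKn
  have hsub : (interior K) ×ˢ (Set.Iio (0 : ℝ)) ⊆ S := by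
    rintro ⟨x, t⟩ ⟨hx, ht⟩
    exact Ach.zero_mem Ψ hB hx (le_of_lt ht)
  have hm1 : ((0 : Fin d → ℝ), (-1 : ℝ)) ∈ interior S := by
    refine (interior_maximal hsub (isOpen_interior.prod isOpen_Iio)) ⟨h0, ?_⟩
    show (-1 : ℝ) < 0
    norm_num
  have hno : ∀ t : ℝ, ((0 : Fin d → ℝ), t) ∈ S → t ≤ d := by
    intro t ht
    by_contra hcon
    push Not at hcon
    have ht0 : 0 < t := lt_of_le_of_lt hd0 hcon
    -- choose ε
    obtain ⟨ε, hε, hε1, hε2⟩ : ∃ ε : ℝ, 0 < ε ∧ ε < 1 ∧ (d : ℝ) < (1 - ε) * t := by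
      refine ⟨(t - d) / (2 * t), by have : 0 < t - d := by linarith
                                    positivity, ?_, ?_⟩
      · rw [div_lt_one (by positivity)]; linarith
      · have : (1 - (t - d) / (2 * t)) * t = (t + d) / 2 := by field_simp; ring
        rw [this]; linarith
    have hopen : IsOpen {x : (Fin d → ℝ) × ℝ | ‖x.1‖ < ε * δ ∧ (d : ℝ) < (1 - ε) * x.2} := by
      have c1 : Continuous fun x : (Fin d → ℝ) × ℝ => ‖x.1‖ := by fun_prop
      have c2 : Continuous fun x : (Fin d → ℝ) × ℝ => (1 - ε) * x.2 := by fun_prop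
      exact (isOpen_lt c1 continuous_const).inter (isOpen_lt continuous_const c2)
    have hmem : ((0 : Fin d → ℝ), t) ∈ {x : (Fin d → ℝ) × ℝ | ‖x.1‖ < ε * δ ∧ (d : ℝ) < (1 - ε) * x.2} := by
      refine ⟨?_, hε2⟩
      rw [norm_zero]
      positivity
    obtain ⟨x, hx1, hx2⟩ := mem_closure_iff.1 ht _ hopen hmem
    have := Ach.bound hΨ hKc hL hε hε1 hδ hball hx2 hx1.1
    exact absurd hx1.2 (not_lt.2 this)
  have hnot : ((0 : Fin d → ℝ), (d : ℝ)) ∉ interior S := by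
    intro hmem
    have hc : Tendsto (fun n : ℕ => ((0 : Fin d → ℝ), (d : ℝ) + 1 / ((n : ℝ) + 1))) atTop
        (𝓝 ((0 : Fin d → ℝ), (d : ℝ))) := by
      refine tendsto_const_nhds.prodMk_nhds ?_
      have := (tendsto_const_nhds (x := (d : ℝ))).add (tendsto_one_div_add_atTop_nhds_zero_nat (𝕜 := ℝ))
      rwa [add_zero] at this
    obtain ⟨n, hn⟩ := (hc.eventually (isOpen_interior.mem_nhds hmem)).exists
    have h1 := hno _ (interior_subset hn)
    have h2 : (0 : ℝ) < 1 / ((n : ℝ) + 1) := by positivity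
    linarith
  obtain ⟨f, hf⟩ := geometric_hahn_banach_open_point hSc.interior isOpen_interior hnot
  have hfS : ∀ a ∈ S, f a ≤ f ((0 : Fin d → ℝ), (d : ℝ)) := by
    have h1 : closure (interior S) ⊆ {a | f a ≤ f ((0 : Fin d → ℝ), (d : ℝ))} :=
      closure_minimal (fun a ha => (hf a ha).le) (isClosed_le f.continuous continuous_const)
    intro a ha
    apply h1
    rw [hSc.closure_interior_eq_closure_of_nonempty_interior ⟨_, hm1⟩]
    exact subset_closure ha
  set c : ℝ := f ((0 : Fin d → ℝ), (1 : ℝ)) with hc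
  have hft : ∀ t : ℝ, f ((0 : Fin d → ℝ), t) = t * c := by
    intro t
    have : ((0 : Fin d → ℝ), t) = t • ((0 : Fin d → ℝ), (1 : ℝ)) := by simp
    rw [this, map_smul, smul_eq_mul]
  have hc0 : 0 < c := by
    have h1 := hf _ hm1
    rw [hft, hft] at h1
    nlinarith
  have hsplit : ∀ a : (Fin d → ℝ) × ℝ, f a = f (a.1, 0) + a.2 * c := by
    intro a
    rw [← hft, ← map_add]
    simp
  refine ⟨-(1 / c) • (f.comp (ContinuousLinearMap.inl ℝ (Fin d → ℝ) ℝ)), ?_, ?_⟩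
  · intro x hx
    have h1 := hfS x (subset_closure hx)
    rw [hsplit, hft] at h1
    show _ ≤ (d : ℝ) + -(1 / c) * f (_, 0)
    have h2 : x.2 * c ≤ (d + -(1 / c) * f (x.1, 0)) * c := by
      have : (d + -(1 / c) * f (x.1, 0)) * c = d * c - f (x.1, 0) := by field_simp; ring
      rw [this]; linarith
    exact le_of_mul_le_mul_right h2 hc0
  · intro x hx
    have h1 := hfS (x, 0) (Ach.zero_mem Ψ hB hx le_rfl)
    rw [hft] at h1
    show _ ≤ (d : ℝ) + -(1 / c) * f (_, 0)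
    have h2 : 0 * c ≤ (d + -(1 / c) * f (x, 0)) * c := by
      have : (d + -(1 / c) * f (x, 0)) * c = d * c - f (x, 0) := by field_simp; ring
      rw [this]; linarith
    exact le_of_mul_le_mul_right h2 hc0

end Pool.Agent.H912R3.Ehr
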