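import Pool.Agent.H912R3.Eq.Conv

/-!
# Equality in Ehrhart's volume inequality: distribution of the affine majorant
-/

set_option autoImplicit false
set_option linter.unusedSectionVars false

open MvPolynomial
open scoped Pointwise Topology
open Set MeasureTheory Filter

namespace Pool.Agent.H912R3.Ehr

variable {d : ℕ} {Γ : Type} [AddCommMonoid Γ] [LinearOrder Γ] [IsOrderedCancelAddMonoid Γ]

theorem vol_le (hd : 1 ≤ d) (Ψ : (Fin d →₀ ℕ) →+ Γ) {K : Set (Fin d → ℝ)} (hK : IsCompact K)
    (hKc : Convex ℝ K) {B : ℕ} (hB : ∀ x ∈ K, ∀ i, |x i| ≤ B)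
    {L : (Fin d → ℝ) →L[ℝ] ℝ} (hLA : ∀ x ∈ Ach Ψ K B, x.2 ≤ d + L x.1) {t : ℝ} (ht : 0 < t)
    {T : Set (Fin d → ℝ)} (hTc : Convex ℝ T) (hTm : MeasurableSet T)
    (hT : ∀ x ∈ Ach Ψ K B, x.1 ∈ T → x.2 < t) :
    volume.real (K ∩ ({x | d + L x < t} ∪ T)) ≤ t ^ d / d.factorial := by
  classical
  set H : Set (Fin d → ℝ) := {x | d + L x < t} with hH
  have hHo : IsOpen H := isOpen_lt (by fun_prop) continuous_const
  have hHc : Convex ℝ H := by
    intro x hx y hy p r hp hr hpr
    have h1 : (d : ℝ) + L x < t := hx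
    have h2 : (d : ℝ) + L y < t := hy
    show (d : ℝ) + L (p • x + r • y) < t
    rw [map_add, map_smul, map_smul, smul_eq_mul, smul_eq_mul]
    rcases hp.eq_or_lt with rfl | hp'
    · have : r = 1 := by linarith
      subst this; linarith
    · have h3 := mul_lt_mul_of_pos_left h1 hp'
      have h4 := mul_le_mul_of_nonneg_left h2.le hr
      have e : r = 1 - p := by linarith
      rw [e] at h4 ⊢
      nlinarith
  set W : Set (Fin d → ℝ) := K ∩ (H ∪ T) with hW
  have hWK : W ⊆ K := inter_subset_left
  have hWb : Bornology.IsBounded W := hK.isBounded.subset hWK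
  have hWm : MeasurableSet W := hK.measurableSet.inter (hHo.measurableSet.union hTm)
  have hWf : volume (frontier W) = 0 := by
    have e : W = (K ∩ H) ∪ (K ∩ T) := by rw [hW, inter_union_distrib_left]
    rw [e]
    refine measure_mono_null ((frontier_union_subset _ _).trans
      (union_subset_union inter_subset_left inter_subset_right)) ?_
    exact measure_union_null ((hKc.inter hHc).addHaar_frontier volume)
      ((hKc.inter hTc).addHaar_frontier volume)
  have hBW : ∀ x ∈ W, ∀ i, |x i| ≤ B := fun x hx => hB x (hWK hx)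
  let A : ℕ → Finset (Fin d →₀ ℕ) := fun k => if hk : 1 ≤ k then AA W k B hk hBW else ∅
  have hA : ∀ k (hk : 1 ≤ k), A k = AA W k B hk hBW := fun k hk => dif_pos hk
  have h1 := tendsto_card_div_pow_atTop_volume W hWb hWm hWf
  rw [Fintype.card_fin] at h1
  have h2 : Tendsto (fun k : ℕ => ((A k).card : ℝ) / k ^ d) atTop (𝓝 (volume.real W)) := by
    refine h1.congr' ?_
    filter_upwards [eventually_ge_atTop 1] with k hk
    rw [grid_eq hk hBW (A k) (hA k hk), Nat.card_coe_set_eq, Set.ncard_coe_finset,
      Finset.card_image_of_injective _ (pt_injective hk B)]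
  have h3 : Tendsto (fun k : ℕ => (t + (d : ℝ) / k) ^ d / d.factorial) atTop
      (𝓝 ((t + 0) ^ d / d.factorial)) :=
    (((tendsto_const_nhds).add (tendsto_const_div_atTop_nhds_zero_nat (d : ℝ))).pow _).div_const _
  rw [add_zero] at h3
  refine le_of_tendsto_of_tendsto h2 h3 ?_
  filter_upwards [eventually_ge_atTop 1] with k hk
  have hk' : (0 : ℝ) < k := by positivity
  set j : ℕ := ⌈t * k⌉₊ with hj
  have hj1 : 1 ≤ j := Nat.ceil_pos.2 (by positivity)
  have hj2 : t * k ≤ j := Nat.le_ceil _
  have hj3 : (j : ℝ) < t * k + 1 := Nat.ceil_lt_add_one (by positivity)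
  obtain ⟨j', hj'⟩ := Nat.exists_eq_succ_of_ne_zero (by omega : j ≠ 0)
  have hcnt := count' (F := ZMod 2) Ψ (AA K k B hk hB) j (AA K k B hk hB \ AA W k B hk hBW) (by
    intro s hs hV l hl
    have hlA : l ∈ AA K k B hk hB := hs hl.1
    rw [Finset.mem_sdiff]
    refine ⟨hlA, fun hlW => ?_⟩
    rw [mem_AA] at hlW
    have hach : (pt k B l, (j : ℝ) / k) ∈ Ach Ψ K B := by
      refine ⟨k, hk, l, j, s, hl, ?_, hV, rfl, le_rfl⟩
      rw [supp_iff hk]
      intro m hm
      have := hs hm
      rwa [mem_AA] at this
    have hjt : t ≤ (j : ℝ) / k := by rw [le_div_iff₀ hk']; exact hj2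
    rcases hlW.2 with h | h
    · have h5 := hLA _ hach
      have h6 : (d : ℝ) + L (pt k B l) < t := h
      simp only at h5
      linarith
    · have h5 := hT _ hach h
      simp only at h5
      linarith)
  have hsub : AA W k B hk hBW ⊆ AA K k B hk hB := by
    intro m hm
    rw [mem_AA] at hm ⊢
    exact hWK hm
  rw [Finset.card_sdiff_of_subset hsub] at hcnt
  have hcle := Finset.card_le_card hsub
  have h4 : (AA W k B hk hBW).card ≤ (j' + d).choose d := by
    have h5 := card_low hd j'
    rw [hj', Nat.succ_eq_add_one] at hcnt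
    omega
  rw [hA k hk, div_le_iff₀ (by positivity)]
  calc ((AA W k B hk hBW).card : ℝ) ≤ (((j' + d).choose d : ℕ) : ℝ) := by exact_mod_cast h4
    _ ≤ ((j' + d : ℕ) : ℝ) ^ d / d.factorial := Nat.choose_le_pow_div d (j' + d)
    _ ≤ (t * k + d) ^ d / d.factorial := by
        have h5 : ((j' + d : ℕ) : ℝ) ≤ t * k + d := by
          have : (j : ℝ) = j' + 1 := by rw [hj']; push_cast; ring
          push_cast
          linarith
        gcongr
    _ = (t + (d : ℝ) / k) ^ d / d.factorial * (k : ℝ) ^ d := by
        rw [div_mul_eq_mul_div, ← mul_pow]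
        congr 2
        field_simp

theorem equality_dist {K : Set (Fin d → ℝ)} (hK : IsCompact K) (hKc : Convex ℝ K)
    (hz : ∀ i, ∫ x in K, x i = 0) (h0 : (0 : Fin d → ℝ) ∈ interior K)
    (hV : volume.real K = ((d : ℝ) + 1) ^ d / d.factorial)
    {L : (Fin d → ℝ) →L[ℝ] ℝ} (hL0 : ∀ x ∈ K, 0 ≤ d + L x)
    (hg : ∀ t : ℝ, 0 < t → volume.real (K ∩ {x | d + L x < t}) ≤ t ^ d / d.factorial) :
    (∀ t : ℝ, 0 < t → t ≤ d + 1 → volume.real (K ∩ {x | d + L x < t}) = t ^ d / d.factorial) ∧
      ∀ x ∈ K, L x ≤ 1 := by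
  set V : ℝ := volume.real K with hVdef
  set μ : Measure (Fin d → ℝ) := volume.restrict K with hμ
  have hfin : IsFiniteMeasure μ := ⟨by rw [hμ, Measure.restrict_apply_univ]; exact hK.measure_lt_top⟩
  let f : (Fin d → ℝ) → ℝ := fun x => d + L x
  have hfc : Continuous f := by
    show Continuous fun x => (d : ℝ) + L x
    fun_prop
  have hfi : Integrable f μ := hfc.continuousOn.integrableOn_compact hK
  obtain ⟨M0, hM0⟩ := hK.exists_bound_of_continuousOn hfc.continuousOn
  set M : ℝ := max M0 (d + 2) with hM
  have hM1 : (d : ℝ) + 1 < M := by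
    have := le_max_right M0 ((d : ℝ) + 2)
    rw [← hM] at this
    linarith
  have hd0 : (0 : ℝ) ≤ d := Nat.cast_nonneg d
  have hlay := hfi.integral_eq_integral_Ioc_meas_le (M := M)
    ((ae_restrict_iff' hK.measurableSet).2 (Eventually.of_forall fun x hx => hL0 x hx))
    ((ae_restrict_iff' hK.measurableSet).2 (Eventually.of_forall fun x hx =>
      ((le_abs_self _).trans (hM0 x hx)).trans (le_max_left _ _)))
  have hint : ∫ x, f x ∂μ = d * V := by
    have e1 : ∫ x, L x ∂μ = 0 := by
      have e2 : ∀ x : Fin d → ℝ, L x = ∑ i, x i * L (fun j => if i = j then 1 else 0) := by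
        intro x
        exact LinearMap.pi_apply_eq_sum_univ (L : (Fin d → ℝ) →ₗ[ℝ] ℝ) x
      rw [show (fun x : Fin d → ℝ => L x) = fun x => ∑ i, x i * L (fun j => if i = j then 1 else 0)
        from funext e2]
      rw [integral_finsetSum]
      · refine Finset.sum_eq_zero fun i _ => ?_
        rw [integral_mul_const, hz i, zero_mul]
      · intro i _
        have : Continuous fun x : Fin d → ℝ => x i * L (fun j => if i = j then 1 else 0) := by
          fun_prop
        exact this.continuousOn.integrableOn_compact hK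
    show ∫ x, ((d : ℝ) + L x) ∂μ = d * V
    rw [integral_add (integrable_const _) (L.continuous.continuousOn.integrableOn_compact hK), e1,
      integral_const, smul_eq_mul, add_zero, measureReal_restrict_apply_univ, mul_comm]
  set φ : ℝ → ℝ := fun t => μ.real {a | t ≤ f a} with hφ
  have hφg : ∀ t, φ t = V - volume.real (K ∩ {x | d + L x < t}) := by
    intro t
    have e1 : φ t = volume.real ({a | t ≤ f a} ∩ K) := by
      rw [hφ]
      show (volume.restrict K).real {a | t ≤ f a} = _
      rw [measureReal_restrict_apply (measurableSet_le measurable_const hfc.measurable)]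
    have e2 : K = (K ∩ {x | d + L x < t}) ∪ ({a | t ≤ f a} ∩ K) := by
      ext x
      constructor
      · intro hx
        rcases lt_or_ge ((d : ℝ) + L x) t with h | h
        · exact Or.inl ⟨hx, h⟩
        · exact Or.inr ⟨h, hx⟩
      · rintro (h | h)
        · exact h.1
        · exact h.2
    have e3 : V = volume.real (K ∩ {x | d + L x < t}) + volume.real ({a | t ≤ f a} ∩ K) := by
      rw [hVdef]
      conv_lhs => rw [e2]
      refine measureReal_union ?_ ((measurableSet_le measurable_const hfc.measurable).inter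
        hK.measurableSet) ?_ ?_
      · rw [Set.disjoint_left]
        rintro x ⟨_, hx⟩ ⟨hx', _⟩
        have h1 : (d : ℝ) + L x < t := hx
        have h2 : t ≤ (d : ℝ) + L x := hx'
        exact absurd h1 (not_lt.2 h2)
      · exact (measure_mono inter_subset_left).trans_lt hK.measure_lt_top |>.ne
      · exact (measure_mono inter_subset_right).trans_lt hK.measure_lt_top |>.ne
    rw [e1]; linarith
  have hφa : Antitone φ := by
    intro s t hst
    exact measureReal_mono (fun x hx => hst.trans hx)
  have hφ0 : ∀ t, 0 ≤ φ t := fun t => measureReal_nonneg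
  let ψ : ℝ → ℝ := fun t => max (V - t ^ d / d.factorial) 0
  have hψc : Continuous ψ := by
    show Continuous fun t : ℝ => max (V - t ^ d / d.factorial) 0
    fun_prop
  have hψφ : ∀ t, 0 < t → ψ t ≤ φ t := by
    intro t ht
    refine max_le ?_ (hφ0 t)
    rw [hφg]
    have := hg t ht
    linarith
  have hψint : ∫ t in (0 : ℝ)..M, ψ t = d * V := by
    rw [← intervalIntegral.integral_add_adjacent_intervals (hψc.intervalIntegrable 0 (d + 1))
      (hψc.intervalIntegrable (d + 1) M)]
    have e1 : ∫ t in (0 : ℝ)..(d + 1), ψ t = ∫ t in (0 : ℝ)..(d + 1), (V - t ^ d / d.factorial) := by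
      refine intervalIntegral.integral_congr fun t ht => ?_
      rw [uIcc_of_le (by positivity)] at ht
      refine max_eq_left ?_
      rw [hV, sub_nonneg]
      have := pow_le_pow_left₀ ht.1 ht.2 d
      gcongr
    have e2 : ∫ t in ((d : ℝ) + 1)..M, ψ t = 0 := by
      have : ∫ t in ((d : ℝ) + 1)..M, ψ t = ∫ t in ((d : ℝ) + 1)..M, (0 : ℝ) := by
        refine intervalIntegral.integral_congr fun t ht => ?_
        rw [uIcc_of_le hM1.le] at ht
        refine max_eq_right ?_
        rw [hV, sub_nonpos]
        gcongr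
        exact ht.1
      rw [this]; simp
    rw [e1, e2, add_zero, intervalIntegral.integral_sub (by simp) (by
      apply Continuous.intervalIntegrable; fun_prop)]
    rw [intervalIntegral.integral_div, integral_pow, intervalIntegral.integral_const]
    rw [hV]
    have hdf : (d.factorial : ℝ) ≠ 0 := by positivity
    have hd1 : (d : ℝ) + 1 ≠ 0 := by positivity
    rw [smul_eq_mul, zero_pow (Nat.succ_ne_zero d), sub_zero, sub_zero, pow_succ]
    field_simp
    ring
  have hM00 : (0 : ℝ) ≤ M := by linarith
  have hφint : IntegrableOn φ (Ioc 0 M) := by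
    have := hφa.intervalIntegrable (a := 0) (b := M) (μ := volume)
    rwa [intervalIntegrable_iff_integrableOn_Ioc_of_le hM00] at this
  have hψint' : IntegrableOn ψ (Ioc 0 M) := by
    have := hψc.intervalIntegrable (μ := volume) 0 M
    rwa [intervalIntegrable_iff_integrableOn_Ioc_of_le hM00] at this
  have hzero : ∫ t in Ioc 0 M, (φ t - ψ t) = 0 := by
    rw [integral_sub hφint hψint', ← intervalIntegral.integral_of_le hM00 (f := ψ), hψint,
      ← hlay, hint, sub_self]
  have hae : ∀ᵐ t ∂(volume.restrict (Ioc 0 M)), φ t - ψ t = 0 := by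
    rw [integral_eq_zero_iff_of_nonneg_ae] at hzero
    · exact hzero
    · refine (ae_restrict_iff' measurableSet_Ioc).2 (Eventually.of_forall fun t ht => ?_)
      exact sub_nonneg.2 (hψφ t ht.1)
    · exact hφint.sub hψint'
  rw [ae_restrict_iff' measurableSet_Ioc] at hae
  have hpt : ∀ t, 0 < t → t ≤ M → φ t = ψ t := by
    intro t ht htM
    refine le_antisymm ?_ (hψφ t ht)
    by_contra hcon
    push Not at hcon
    have h1 : ∀ᶠ s in 𝓝 t, ψ s < φ t := hψc.continuousAt.eventually (gt_mem_nhds hcon)
    obtain ⟨η, hη, h2⟩ := Metric.eventually_nhds_iff.1 h1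
    set s1 : ℝ := max (t - η) 0 with hs1
    have hs1t : s1 < t := max_lt (by linarith) ht
    have h3 : volume (Ioo s1 t) ≤ 0 := by
      rw [← show volume {x | ¬(x ∈ Ioc 0 M → φ x - ψ x = 0)} = 0 from hae]
      refine measure_mono fun s hs => ?_
      show ¬(s ∈ Ioc 0 M → φ s - ψ s = 0)
      intro hcon2
      have hs0 : 0 < s := lt_of_le_of_lt (le_max_right _ _) hs.1
      have hs2 : t - η < s := lt_of_le_of_lt (le_max_left _ _) hs.1
      have h4 := hcon2 ⟨hs0, hs.2.le.trans htM⟩
      have h5 : ψ s < φ t := h2 (by rw [Real.dist_eq, abs_lt]; constructor <;> linarith [hs.2])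
      have h6 := hφa hs.2.le
      linarith
    rw [Real.volume_Ioo] at h3
    have : 0 < ENNReal.ofReal (t - s1) := ENNReal.ofReal_pos.2 (by linarith)
    exact absurd h3 (not_le.2 this)
  constructor
  · intro t ht ht1
    have h1 := hpt t ht (by linarith)
    rw [hφg] at h1
    have h2 : ψ t = V - t ^ d / d.factorial := by
      refine max_eq_left ?_
      rw [hV, sub_nonneg]
      gcongr
    linarith
  · intro x hx
    by_contra hcon
    push Not at hcon
    have hfx : (d : ℝ) + 1 < f x := by show (d : ℝ) + 1 < d + L x; linarith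
    obtain ⟨t, ht1, ht2⟩ := exists_between hfx
    have htM : t ≤ M := by
      have : f x ≤ M := ((le_abs_self _).trans (hM0 x hx)).trans (le_max_left _ _)
      linarith
    have h1 := hpt t (by linarith) htM
    have h2 : ψ t = 0 := by
      refine max_eq_right ?_
      rw [hV, sub_nonpos]
      gcongr
    have hxc : x ∈ closure (interior K) := by
      rw [hKc.closure_interior_eq_closure_of_nonempty_interior ⟨0, h0⟩]
      exact subset_closure hx
    obtain ⟨y, hy1, hy2⟩ := mem_closure_iff.1 hxc {y | t < f y} (isOpen_lt continuous_const hfc) ht2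
    have hopen : IsOpen ({y | t < f y} ∩ interior K) :=
      (isOpen_lt continuous_const hfc).inter isOpen_interior
    have h3 : 0 < volume ({y | t < f y} ∩ interior K) := hopen.measure_pos volume ⟨y, hy1, hy2⟩
    have h4 : φ t = volume.real ({a | t ≤ f a} ∩ K) := by
      show (volume.restrict K).real {a | t ≤ f a} = _
      rw [measureReal_restrict_apply (measurableSet_le measurable_const hfc.measurable)]
    have h5 : volume ({a | t ≤ f a} ∩ K) = 0 := by
      rw [h4, h2, measureReal_def, ENNReal.toReal_eq_zero_iff] at h1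
      rcases h1 with h1 | h1
      · exact h1
      · exact absurd h1 ((measure_mono inter_subset_right).trans_lt hK.measure_lt_top).ne
    have h6 : ({y | t < f y} ∩ interior K) ⊆ ({a | t ≤ f a} ∩ K) :=
      inter_subset_inter (fun a (ha : t < f a) => (le_of_lt ha : t ≤ f a)) interior_subset
    exact absurd (measure_mono_null h6 h5) h3.ne'

end Pool.Agent.H912R3.Ehr
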