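import Pool.Agent.H912R3.Eq.Dist

/-!
# Equality in Ehrhart's volume inequality: the majorant vanishes at a strongly exposed point
-/

set_option autoImplicit false
set_option linter.unusedSectionVars false

open MvPolynomial
open scoped Pointwise Topology
open Set MeasureTheory Filter

namespace Pool.Agent.H912R3.Ehr

variable {d : ℕ}

theorem order_le {s : MvPolynomial (Fin d) (ZMod 2)} {l : Fin d →₀ ℕ} (hl : l ∈ s.support)
    {R : ℝ} (hR : 0 < R) (h : ∀ m ∈ s.support, ∀ i, |(m i : ℝ) - l i| < R) {j : ℕ}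
    (hV : Van j s) : (j : ℝ) ≤ 2 * d * R := by
  have : Fact (Nat.Prime 2) := ⟨Nat.prime_two⟩
  obtain ⟨e, he1, he2⟩ : ∃ e : ℕ, R ≤ (2 : ℝ) ^ e ∧ (2 : ℝ) ^ e - 1 ≤ 2 * R := by
    rcases lt_or_ge R 1 with h1 | h1
    · exact ⟨0, by simpa using h1.le, by simpa using hR.le⟩
    · obtain ⟨n, hn1, hn2⟩ := exists_nat_pow_near h1 (one_lt_two : (1 : ℝ) < 2)
      refine ⟨n + 1, hn2.le, ?_⟩
      rw [pow_succ]; linarith
  by_contra hcon
  push Not at hcon
  have hq1 : 1 ≤ 2 ^ e := Nat.one_le_two_pow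
  have hj : d * (2 ^ e - 1) + 1 ≤ j := by
    have h1 : ((d * (2 ^ e - 1) : ℕ) : ℝ) < j := by
      have h2 : ((d * (2 ^ e - 1) : ℕ) : ℝ) = d * ((2 : ℝ) ^ e - 1) := by
        rw [Nat.cast_mul, Nat.cast_sub hq1]
        push_cast
        ring
      rw [h2]
      have h3 : (d : ℝ) * ((2 : ℝ) ^ e - 1) ≤ d * (2 * R) :=
        mul_le_mul_of_nonneg_left he2 (Nat.cast_nonneg _)
      linarith
    have h2 : d * (2 ^ e - 1) < j := by exact_mod_cast h1
    omega
  have hfold : fold (2 ^ e) (cls (2 ^ e) l) s = coeff l s := by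
    refine fold_apply _ _ _ _ rfl fun m hm hcl => ?_
    ext i
    have h1 : ((m i : ℕ) : ZMod (2 ^ e)) = ((l i : ℕ) : ZMod (2 ^ e)) := congrFun hcl i
    have h2 : (((m i : ℤ) - (l i : ℤ) : ℤ) : ZMod (2 ^ e)) = 0 := by
      rw [Int.cast_sub, Int.cast_natCast, Int.cast_natCast, h1, sub_self]
    rw [ZMod.intCast_zmod_eq_zero_iff_dvd] at h2
    have h3 : |(m i : ℤ) - (l i : ℤ)| < ((2 ^ e : ℕ) : ℤ) := by
      have h4 := (h m hm i).trans_le he1
      have h5 : ((|(m i : ℤ) - (l i : ℤ)| : ℤ) : ℝ) < (((2 ^ e : ℕ) : ℤ) : ℝ) := by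
        push_cast
        exact h4
      exact_mod_cast h5
    have h4 := Int.eq_zero_of_abs_lt_dvd h2 h3
    omega
  have hz : fold (2 ^ e) (cls (2 ^ e) l) s = 0 :=
    fold_eq_zero (p := 2) e (2 ^ e) rfl _ _ (hV.mono hj)
  exact (mem_support_iff.1 hl) (by rw [← hfold, hz])

/-- weight of an exponent -/
noncomputable def wt (w : Fin d → ℝ) : (Fin d →₀ ℕ) →+ ℝ where
  toFun m := ∑ i, w i * m i
  map_zero' := by simp
  map_add' := by intro a b; simp [mul_add, Finset.sum_add_distrib]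

/-- weight order, ties broken lexicographically -/
noncomputable def Psi (w : Fin d → ℝ) : (Fin d →₀ ℕ) →+ (ℝ ×ₗ (mo d).syn) where
  toFun m := toLex (wt w m, (mo d).toSyn m)
  map_zero' := by rw [map_zero, map_zero]; rfl
  map_add' := by intro a b; rw [map_add, map_add]; rfl

theorem Psi_injective (w : Fin d → ℝ) : Function.Injective (Psi w) := by
  intro a b h
  have h1 : toLex (wt w a, (mo d).toSyn a) = toLex (wt w b, (mo d).toSyn b) := h
  have h2 := toLex.injective h1
  exact (mo d).toSyn.injective (Prod.ext_iff.1 h2).2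

theorem Psi_le {w : Fin d → ℝ} {a b : Fin d →₀ ℕ} (h : Psi w a ≤ Psi w b) : wt w a ≤ wt w b := by
  have h1 : toLex (wt w a, (mo d).toSyn a) ≤ toLex (wt w b, (mo d).toSyn b) := h
  rw [Prod.Lex.toLex_le_toLex] at h1
  rcases h1 with h1 | h1
  · exact h1.le
  · exact h1.1.le

theorem expo (hd : 1 ≤ d) {K : Set (Fin d → ℝ)} (hK : IsCompact K) (hKc : Convex ℝ K)
    (hz : ∀ i, ∫ x in K, x i = 0) (h0 : (0 : Fin d → ℝ) ∈ interior K)
    (hL : ∀ z : Fin d → ℤ, (fun i => (z i : ℝ)) ∈ interior K → z = 0)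
    (hV : volume.real K = ((d : ℝ) + 1) ^ d / d.factorial)
    {v : Fin d → ℝ} (hv : v ∈ K) {w : Fin d → ℝ}
    (hw : ∀ x ∈ K, ∑ i, w i * v i + (∑ i, (x i - v i) ^ 2) / 2 ≤ ∑ i, w i * x i) :
    ∃ L : (Fin d → ℝ) →L[ℝ] ℝ, L v = -d ∧ (∀ x ∈ K, -d ≤ L x) ∧ (∀ x ∈ K, L x ≤ 1) ∧
      ∀ t : ℝ, 0 < t → t ≤ d + 1 →
        volume.real (K ∩ {x | d + L x < t}) = t ^ d / d.factorial := by
  obtain ⟨R, hR⟩ := hK.isBounded.subset_closedBall (0 : Fin d → ℝ)
  obtain ⟨B, hB0⟩ := exists_nat_ge R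
  have hB : ∀ x ∈ K, ∀ i, |x i| ≤ B := by
    intro x hx i
    have h1 := hR hx
    rw [mem_closedBall_zero_iff] at h1
    exact ((norm_le_pi_norm x i).trans h1).trans hB0
  obtain ⟨L, hLA, hLi⟩ := exists_slope (Psi_injective w) hKc h0 hL hB
  have hcl : K ⊆ closure (interior K) := by
    rw [hKc.closure_interior_eq_closure_of_nonempty_interior ⟨0, h0⟩]
    exact subset_closure
  have hL0 : ∀ x ∈ K, 0 ≤ d + L x := by
    have h1 : closure (interior K) ⊆ {x | 0 ≤ d + L x} :=
      closure_minimal (fun x hx => hLi x hx) (isClosed_le continuous_const (by fun_prop))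
    exact fun x hx => h1 (hcl hx)
  have hg : ∀ t : ℝ, 0 < t → volume.real (K ∩ {x | d + L x < t}) ≤ t ^ d / d.factorial := by
    intro t ht
    have := vol_le hd (Psi w) hK hKc hB hLA ht convex_empty MeasurableSet.empty
      (fun x _ h => absurd h (Set.notMem_empty _))
    rwa [union_empty] at this
  obtain ⟨hdist, hle⟩ := equality_dist hK hKc hz h0 hV hL0 hg
  refine ⟨L, ?_, fun x hx => by linarith [hL0 x hx], hle, hdist⟩
  by_contra hne
  have ha0 : 0 < d + L v := lt_of_le_of_ne (hL0 v hv) (fun h => hne (by linarith))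
  set t : ℝ := (d + L v) / 2 with ht
  have ht0 : 0 < t := by positivity
  have htd : t ≤ d + 1 := by
    have := hle v hv
    have hd0 : (0 : ℝ) ≤ d := Nat.cast_nonneg d
    rw [ht]; linarith
  have hcont : ∀ᶠ x in 𝓝 v, t < d + L x := by
    have hc : Continuous fun x => (d : ℝ) + L x := by fun_prop
    exact hc.continuousAt.eventually (lt_mem_nhds (by rw [ht]; linarith))
  obtain ⟨ρ0, hρ0, hρ⟩ := Metric.eventually_nhds_iff.1 hcont
  set ρ : ℝ := min ρ0 (t / (8 * (d + 1))) with hρdef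
  have hρpos : 0 < ρ := lt_min hρ0 (by positivity)
  have hρ1 : ρ ≤ ρ0 := min_le_left _ _
  have hρ2 : 4 * d * ρ < t := by
    have h1 : ρ ≤ t / (8 * (d + 1)) := min_le_right _ _
    have h2 : 4 * (d : ℝ) * ρ ≤ 4 * d * (t / (8 * (d + 1))) := by gcongr
    have h3 : 4 * (d : ℝ) * (t / (8 * (d + 1))) = t * (d / (2 * (d + 1))) := by field_simp; ring
    have h4 : (d : ℝ) / (2 * (d + 1)) < 1 := by
      rw [div_lt_one (by positivity)]
      have hd0 : (0 : ℝ) ≤ d := Nat.cast_nonneg d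
      linarith
    have h5 : t * (d / (2 * (d + 1))) < t * 1 := mul_lt_mul_of_pos_left h4 ht0
    linarith
  set T : Set (Fin d → ℝ) := {x | ∑ i, w i * x i < ∑ i, w i * v i + ρ ^ 2 / 2} with hT
  have hTo : IsOpen T := isOpen_lt (by fun_prop) continuous_const
  have hTc : Convex ℝ T := by
    intro x hx y hy p r hp hr hpr
    have h1 : ∑ i, w i * x i < ∑ i, w i * v i + ρ ^ 2 / 2 := hx
    have h2 : ∑ i, w i * y i < ∑ i, w i * v i + ρ ^ 2 / 2 := hy
    show ∑ i, w i * (p • x + r • y) i < ∑ i, w i * v i + ρ ^ 2 / 2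
    have e : ∑ i, w i * (p • x + r • y) i = p * ∑ i, w i * x i + r * ∑ i, w i * y i := by
      rw [Finset.mul_sum, Finset.mul_sum, ← Finset.sum_add_distrib]
      refine Finset.sum_congr rfl fun i _ => ?_
      simp only [Pi.add_apply, Pi.smul_apply, smul_eq_mul]
      ring
    rw [e]
    rcases hp.eq_or_lt with rfl | hp'
    · have : r = 1 := by linarith
      subst this; linarith
    · have h3 := mul_lt_mul_of_pos_left h1 hp'
      have h4 := mul_le_mul_of_nonneg_left h2.le hr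
      have e : r = 1 - p := by linarith
      rw [e] at h4 ⊢
      nlinarith
  have hTK : ∀ x ∈ K, x ∈ T → ∀ i, |x i - v i| < ρ := by
    intro x hx hxT i
    have h1 := hw x hx
    have h2 : ∑ i, w i * x i < ∑ i, w i * v i + ρ ^ 2 / 2 := hxT
    have h3 : (x i - v i) ^ 2 ≤ ∑ i, (x i - v i) ^ 2 :=
      Finset.single_le_sum (f := fun i => (x i - v i) ^ 2) (fun i _ => sq_nonneg _)
        (Finset.mem_univ i)
    have h4 : (x i - v i) ^ 2 < ρ ^ 2 := by linarith
    exact abs_lt_of_sq_lt_sq h4 hρpos.le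
  have hTA : ∀ x ∈ Ach (Psi w) K B, x.1 ∈ T → x.2 < t := by
    rintro x ⟨k, hk, l, j, s, hTop, hS, hVan, h1, h2⟩ hxT
    have hk' : (0 : ℝ) < k := by positivity
    rw [h1] at hxT
    have hsupp := (supp_iff hk).1 hS
    have hwt : ∀ m : Fin d →₀ ℕ, ∑ i, w i * pt k B m i = (k : ℝ)⁻¹ * wt w m - B * ∑ i, w i := by
      intro m
      have e1 : wt w m = ∑ i, w i * m i := rfl
      rw [e1, Finset.mul_sum, Finset.mul_sum, ← Finset.sum_sub_distrib]
      refine Finset.sum_congr rfl fun i _ => ?_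
      show w i * ((k : ℝ)⁻¹ * (m i : ℝ) - B) = _
      ring
    have hall : ∀ m ∈ s.support, ∀ i, |pt k B m i - v i| < ρ := by
      intro m hm
      refine hTK _ (hsupp m hm) ?_
      have h3 := Psi_le (hTop.2 m hm)
      have h4 : ∑ i, w i * pt k B l i < ∑ i, w i * v i + ρ ^ 2 / 2 := hxT
      show ∑ i, w i * pt k B m i < ∑ i, w i * v i + ρ ^ 2 / 2
      rw [hwt] at h4 ⊢
      have h5 : (k : ℝ)⁻¹ * wt w m ≤ (k : ℝ)⁻¹ * wt w l :=
        mul_le_mul_of_nonneg_left h3 (by positivity)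
      linarith
    have hj := order_le hTop.1 (R := k * (2 * ρ)) (by positivity) (by
      intro m hm i
      have h3 := hall m hm i
      have h4 := hall l hTop.1 i
      have h5 : |pt k B m i - pt k B l i| < 2 * ρ := by
        have e : pt k B m i - pt k B l i = (pt k B m i - v i) - (pt k B l i - v i) := by ring
        rw [e]
        refine (abs_sub _ _).trans_lt ?_
        linarith
      have h6 : (m i : ℝ) - l i = k * (pt k B m i - pt k B l i) := by
        show _ = (k : ℝ) * (((k : ℝ)⁻¹ * (m i : ℝ) - B) - ((k : ℝ)⁻¹ * (l i : ℝ) - B))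
        field_simp
        ring
      rw [h6, abs_mul, abs_of_pos hk']
      exact mul_lt_mul_of_pos_left h5 hk') hVan
    have h7 : (j : ℝ) / k ≤ 4 * d * ρ := by
      rw [div_le_iff₀ hk']
      linarith
    linarith
  have hfin := vol_le hd (Psi w) hK hKc hB hLA ht0 hTc hTo.measurableSet hTA
  have heq := hdist t ht0 htd
  -- the open set `T ∩ interior K`
  have hvT : v ∈ T := by
    show ∑ i, w i * v i < ∑ i, w i * v i + ρ ^ 2 / 2
    have : 0 < ρ ^ 2 / 2 := by positivity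
    linarith
  obtain ⟨y, hy1, hy2⟩ := mem_closure_iff.1 (hcl hv) T hTo hvT
  have hOo : IsOpen (T ∩ interior K) := hTo.inter isOpen_interior
  have hOpos : 0 < volume (T ∩ interior K) := hOo.measure_pos volume ⟨y, hy1, hy2⟩
  have hOfin : volume (T ∩ interior K) ≠ ⊤ :=
    ((measure_mono (inter_subset_right.trans interior_subset)).trans_lt hK.measure_lt_top).ne
  have hdisj : Disjoint (K ∩ {x | d + L x < t}) (T ∩ interior K) := by
    rw [Set.disjoint_left]
    rintro x ⟨hxK, hx1⟩ ⟨hxT, _⟩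
    have h1 := hTK x hxK hxT
    have h2 : dist x v < ρ0 := by
      rw [dist_pi_lt_iff hρ0]
      intro i
      rw [Real.dist_eq]
      exact (h1 i).trans_le hρ1
    have h3 := hρ h2
    have h4 : (d : ℝ) + L x < t := hx1
    linarith
  have hun := measureReal_union (μ := volume) hdisj hOo.measurableSet
    (((measure_mono inter_subset_left).trans_lt hK.measure_lt_top).ne) hOfin
  have hsub : (K ∩ {x | d + L x < t}) ∪ (T ∩ interior K) ⊆ K ∩ ({x | d + L x < t} ∪ T) := by
    rintro x (hx | hx)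
    · exact ⟨hx.1, Or.inl hx.2⟩
    · exact ⟨interior_subset hx.2, Or.inr hx.1⟩
  have hmono := measureReal_mono (μ := volume) hsub
    (((measure_mono inter_subset_left).trans_lt hK.measure_lt_top).ne)
  have hpos : 0 < volume.real (T ∩ interior K) := ENNReal.toReal_pos hOpos.ne' hOfin
  linarith

end Pool.Agent.H912R3.Ehr
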