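import Pool.Agent.H912R3.Eq.Lat

/-!
# Ehrhart's inequality with equality case: assembly for bodies with arbitrary barycentre
-/

set_option autoImplicit false
set_option linter.unusedSectionVars false

open scoped Pointwise Topology
open Set MeasureTheory Filter

namespace Pool.Agent.H912R3.Ehr

variable {n : ℕ}

/-- affine change of variables -/
theorem cov (S : (Fin n → ℝ) →ₗ[ℝ] (Fin n → ℝ)) (hS : LinearMap.det S ≠ 0) (c : Fin n → ℝ)
    {K : Set (Fin n → ℝ)} (hK : MeasurableSet K) (g : (Fin n → ℝ) → ℝ) :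
    ∫ y in (fun x => S x + c) '' K, g y = |LinearMap.det S| * ∫ x in K, g (S x + c) := by
  have hinj : Function.Injective S := (LinearMap.equivOfDetNeZero S hS).injective
  have h := integral_image_eq_integral_abs_det_fderiv_smul volume hK
    (f := fun x => S x + c) (f' := fun _ => LinearMap.toContinuousLinearMap S)
    (fun x _ => ((LinearMap.toContinuousLinearMap S).hasFDerivAt.add_const c).hasFDerivWithinAt)
    (fun x _ y _ hxy => hinj (add_right_cancel hxy)) g
  rw [h, ← integral_const_mul]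
  refine integral_congr_ae (Eventually.of_forall fun x => ?_)
  show |(LinearMap.toContinuousLinearMap S).det| • g (S x + c) = _
  rw [LinearMap.det_toContinuousLinearMap, smul_eq_mul]

theorem eval_int {K : Set (Fin n → ℝ)} (hK : IsCompact K) (i : Fin n) :
    (∫ x in K, x) i = ∫ x in K, x i := by
  have hi : Integrable (fun x : Fin n → ℝ => x) (volume.restrict K) :=
    continuous_id.continuousOn.integrableOn_compact hK
  have := (ContinuousLinearMap.proj (R := ℝ) (φ := fun _ : Fin n => ℝ) i).integral_comp_comm hi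
  exact this.symm

theorem centroid_mem_interior {K : Set (Fin n → ℝ)} (hK : IsCompact K) (hKc : Convex ℝ K)
    (hne : (interior K).Nonempty) :
    ((volume K).toReal⁻¹ • ∫ x in K, x) ∈ interior K := by
  set b : Fin n → ℝ := (volume K).toReal⁻¹ • ∫ x in K, x with hb
  have hVpos : 0 < (volume K).toReal := by
    have h1 : 0 < volume K := by
      have : 0 < volume (interior K) := isOpen_interior.measure_pos volume hne
      exact this.trans_le (measure_mono interior_subset)
    exact ENNReal.toReal_pos h1.ne' hK.measure_lt_top.ne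
  by_contra hcon
  obtain ⟨f, hf⟩ := geometric_hahn_banach_open_point hKc.interior isOpen_interior hcon
  have hcl : K ⊆ closure (interior K) := by
    rw [hKc.closure_interior_eq_closure_of_nonempty_interior hne]
    exact subset_closure
  have hfK : ∀ x ∈ K, f x ≤ f b := by
    have h1 : closure (interior K) ⊆ {x | f x ≤ f b} :=
      closure_minimal (fun x hx => (hf x hx).le) (isClosed_le f.continuous continuous_const)
    exact fun x hx => h1 (hcl hx)
  have hi : Integrable (fun x : Fin n → ℝ => x) (volume.restrict K) :=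
    continuous_id.continuousOn.integrableOn_compact hK
  have hif : Integrable (fun x : Fin n → ℝ => f x) (volume.restrict K) :=
    f.continuous.continuousOn.integrableOn_compact hK
  have hfin : IsFiniteMeasure (volume.restrict K) :=
    ⟨by rw [Measure.restrict_apply_univ]; exact hK.measure_lt_top⟩
  have h1 : ∫ x in K, f x = (volume K).toReal * f b := by
    rw [f.integral_comp_comm hi, hb, map_smul, smul_eq_mul, ← mul_assoc,
      mul_inv_cancel₀ hVpos.ne', one_mul]
  have h2 : ∫ x in K, (f b - f x) = 0 := by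
    rw [integral_sub (integrable_const _) hif, h1, setIntegral_const, smul_eq_mul,
      measureReal_def, sub_self]
  have h3 : (fun x => f b - f x) =ᵐ[volume.restrict K] 0 := by
    rw [integral_eq_zero_iff_of_nonneg_ae] at h2
    · exact h2
    · exact (ae_restrict_iff' hK.measurableSet).2 (Eventually.of_forall fun x hx =>
        sub_nonneg.2 (hfK x hx))
    · exact (integrable_const _).sub hif
  have h4 : ∀ᵐ x ∂volume, x ∈ K → f b - f x = 0 :=
    (ae_restrict_iff' hK.measurableSet).1 h3
  have h5 : volume (interior K) ≤ 0 := by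
    rw [← show volume {x | ¬(x ∈ K → f b - f x = 0)} = 0 from h4]
    refine measure_mono fun x hx => ?_
    show ¬(x ∈ K → f b - f x = 0)
    intro h
    have := h (interior_subset hx)
    have := hf x hx
    linarith
  exact absurd h5 (not_le.2 (isOpen_interior.measure_pos volume hne))

theorem core_eq (hn : 1 ≤ n) {K : Set (Fin n → ℝ)} (hK : IsCompact K) (hKc : Convex ℝ K)
    (hz : ∀ i, ∫ x in K, x i = 0) (h0 : (0 : Fin n → ℝ) ∈ interior K)
    (hL : ∀ z : Fin n → ℤ, (fun i => (z i : ℝ)) ∈ interior K → z = 0)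
    (hV : volume.real K = ((n : ℝ) + 1) ^ n / n.factorial) :
    ∃ A : Matrix (Fin n) (Fin n) ℤ, IsUnit A.det ∧
      K = {x | (fun i => ∑ j, (A i j : ℝ) * x j + 1) ∈ Tx n (n + 1)} := by
  obtain ⟨L, h1, h2⟩ := simplex_structure hn hK hKc hz h0 hL hV
  exact lattice_part hK hL hV L h1 h2

theorem exists_real_pre {A : Matrix (Fin n) (Fin n) ℤ} (hA : IsUnit A.det) (y : Fin n → ℝ) :
    ∃ x : Fin n → ℝ, ∀ i, ∑ j, (A i j : ℝ) * x j = y i := by
  have h1 : A.map (Int.castRingHom ℝ) * (A⁻¹).map (Int.castRingHom ℝ) = 1 := by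
    rw [← Matrix.map_mul, Matrix.mul_nonsing_inv A hA]
    ext a b
    simp [Matrix.one_apply]
  refine ⟨((A⁻¹).map (Int.castRingHom ℝ)).mulVec y, fun i => ?_⟩
  have h2 : (A.map (Int.castRingHom ℝ)).mulVec (((A⁻¹).map (Int.castRingHom ℝ)).mulVec y) = y := by
    rw [Matrix.mulVec_mulVec, h1, Matrix.one_mulVec]
  exact congrFun h2 i

theorem exists_int_pre {A : Matrix (Fin n) (Fin n) ℤ} (hA : IsUnit A.det) (y : Fin n → ℤ) :
    ∃ x : Fin n → ℤ, ∀ i, ∑ j, (A i j : ℝ) * (x j : ℝ) = y i := by
  refine ⟨(A⁻¹).mulVec y, fun i => ?_⟩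
  have h2 : A.mulVec ((A⁻¹).mulVec y) = y := by
    rw [Matrix.mulVec_mulVec, Matrix.mul_nonsing_inv A hA, Matrix.one_mulVec]
  have h3 : ∑ j, A i j * (A⁻¹).mulVec y j = y i := congrFun h2 i
  exact_mod_cast h3

theorem no_bigger (hn : 1 ≤ n) {K K' : Set (Fin n → ℝ)} (hKc : Convex ℝ K) (hsub : K' ⊆ K)
    (hL : ∀ z : Fin n → ℤ, (fun i => (z i : ℝ)) ∈ interior K → z = 0)
    {A : Matrix (Fin n) (Fin n) ℤ} (hA : IsUnit A.det)
    (hK' : K' = {x | (fun i => ∑ j, (A i j : ℝ) * x j + 1) ∈ Tx n (n + 1)}) : K ⊆ K' := by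
  classical
  let S : (Fin n → ℝ) → Fin n → ℝ := fun x i => ∑ j, (A i j : ℝ) * x j
  have hSadd : ∀ x y, S (x + y) = S x + S y := by
    intro x y; funext i
    show ∑ j, (A i j : ℝ) * (x j + y j) = ∑ j, (A i j : ℝ) * x j + ∑ j, (A i j : ℝ) * y j
    rw [← Finset.sum_add_distrib]
    exact Finset.sum_congr rfl fun j _ => by ring
  have hSsmul : ∀ (c : ℝ) x, S (c • x) = c • S x := by
    intro c x; funext i
    show ∑ j, (A i j : ℝ) * (c * x j) = c * ∑ j, (A i j : ℝ) * x j
    rw [Finset.mul_sum]
    exact Finset.sum_congr rfl fun j _ => by ring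
  have hSc : Continuous S := by
    refine continuous_pi fun i => ?_
    show Continuous fun x : Fin n → ℝ => ∑ j, (A i j : ℝ) * x j
    fun_prop
  have hSci : ∀ i, Continuous fun x => S x i := fun i => (continuous_apply i).comp hSc
  have hint : ∀ x, (∀ i, -1 < S x i) → ∑ i, S x i < 1 → x ∈ interior K := by
    intro x h1 h2
    have hopen : IsOpen {x | (∀ i, -1 < S x i) ∧ ∑ i, S x i < 1} := by
      have e1 : IsOpen {x | ∀ i, -1 < S x i} := by
        rw [show {x | ∀ i, -1 < S x i} = ⋂ i, {x | -1 < S x i} by ext; simp]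
        exact isOpen_iInter_of_finite fun i => isOpen_lt continuous_const (hSci i)
      exact e1.inter (isOpen_lt (continuous_finsetSum _ fun i _ => hSci i) continuous_const)
    refine interior_maximal ?_ hopen ⟨h1, h2⟩
    intro y hy
    apply hsub
    rw [hK', mem_ofPred_eq, Tx, mem_ofPred_eq]
    simp only [Finset.sum_add_distrib, Finset.sum_const, Finset.card_univ,
      Fintype.card_fin, nsmul_eq_mul, mul_one]
    exact ⟨fun i => by have : -1 < ∑ j, (A i j : ℝ) * y j := hy.1 i
                       linarith, by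
      have : ∑ i, ∑ j, (A i j : ℝ) * y j < 1 := hy.2
      linarith⟩
  intro p hp
  by_contra hpn
  rw [hK', mem_ofPred_eq, Tx, mem_ofPred_eq] at hpn
  simp only [Finset.sum_add_distrib, Finset.sum_const, Finset.card_univ,
      Fintype.card_fin, nsmul_eq_mul, mul_one] at hpn
  set C : ℝ := 1 + ∑ j, |S p j| with hC
  have hCs : 0 ≤ ∑ j, |S p j| := Finset.sum_nonneg fun j _ => abs_nonneg _
  have hC1 : 1 ≤ C := by rw [hC]; linarith
  set ε : ℝ := 1 / (2 * C) with hε
  have hε0 : 0 < ε := by positivity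
  have hεC : ε * C = 1 / 2 := by rw [hε]; field_simp
  have hε1 : ε ≤ 1 / 2 := by nlinarith
  have hSj : ∀ j, ε * |S p j| ≤ 1 / 2 := by
    intro j
    have h1 : |S p j| ≤ ∑ j, |S p j| := Finset.single_le_sum (f := fun j => |S p j|)
      (fun j _ => abs_nonneg _) (Finset.mem_univ j)
    have h2 : |S p j| ≤ C := by rw [hC]; linarith
    nlinarith
  have hSs : ε * |∑ j, S p j| ≤ 1 / 2 := by
    have h1 : |∑ j, S p j| ≤ ∑ j, |S p j| := Finset.abs_sum_le_sum_abs _ _
    have h2 : |∑ j, S p j| ≤ C := by rw [hC]; linarith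
    nlinarith
  -- general step
  have hstep : ∀ q : Fin n → ℤ, (∀ i, -1 < S (fun i => (q i : ℝ)) i + ε * (S (fun i => (q i : ℝ)) i - S p i)) →
      (∑ i, S (fun i => (q i : ℝ)) i + ε * (∑ i, S (fun i => (q i : ℝ)) i - ∑ i, S p i) < 1) → q = 0 := by
    intro q h1 h2
    set qr : Fin n → ℝ := fun i => (q i : ℝ) with hqr
    have hr : qr + ε • (qr + (-1 : ℝ) • p) ∈ interior K := by
      have e : ∀ i, S (qr + ε • (qr + (-1 : ℝ) • p)) i = S qr i + ε * (S qr i - S p i) := by
        intro i
        rw [hSadd, hSsmul, hSadd, hSsmul]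
        simp only [Pi.add_apply, Pi.smul_apply, smul_eq_mul]
        ring
      refine hint _ (fun i => ?_) ?_
      · rw [e]; exact h1 i
      · simp_rw [e]
        rw [Finset.sum_add_distrib, ← Finset.mul_sum, Finset.sum_sub_distrib]
        exact h2
    apply hL
    have h3 := hKc.combo_interior_self_mem_interior hr hp (a := 1 / (1 + ε)) (b := ε / (1 + ε))
      (by positivity) (by positivity) (by field_simp)
    have e : (1 / (1 + ε)) • (qr + ε • (qr + (-1 : ℝ) • p)) + (ε / (1 + ε)) • p = qr := by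
      funext i
      simp only [Pi.add_apply, Pi.smul_apply, smul_eq_mul]
      field_simp
      ring
    rwa [e] at h3
  by_cases hcase : ∀ i, 0 ≤ ∑ j, (A i j : ℝ) * p j + 1
  · -- the sum is too large
    have hs : 1 < ∑ i, S p i := by
      by_contra h
      push Not at h
      have h' : ∑ i, ∑ j, (A i j : ℝ) * p j ≤ 1 := h
      exact hpn ⟨hcase, by linarith⟩
    obtain ⟨q, hq⟩ := exists_int_pre hA (Pi.single (⟨0, hn⟩ : Fin n) 1)
    have hq' : ∀ i, S (fun i => (q i : ℝ)) i =
        (((Pi.single (⟨0, hn⟩ : Fin n) (1 : ℤ) : Fin n → ℤ) i : ℤ) : ℝ) := hq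
    have hqs : ∑ i, S (fun i => (q i : ℝ)) i = 1 := by
      simp_rw [hq']
      rw [← Int.cast_sum, Finset.sum_pi_single']
      simp
    have hq0 := hstep q (by
      intro i
      rw [hq']
      have h1 := hSj i
      have h2 : (0 : ℝ) ≤ (((Pi.single (⟨0, hn⟩ : Fin n) (1 : ℤ) : Fin n → ℤ) i : ℤ) : ℝ) := by
        by_cases hi : i = ⟨0, hn⟩
        · rw [hi, Pi.single_eq_same]; norm_num
        · rw [Pi.single_eq_of_ne hi]; norm_num
      have h3 := le_abs_self (S p i)
      nlinarith) (by
      rw [hqs]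
      nlinarith)
    rw [hq0] at hqs
    have : ∑ i, S (fun i => (((0 : Fin n → ℤ) i : ℤ) : ℝ)) i = 0 := by
      refine Finset.sum_eq_zero fun i _ => ?_
      show ∑ j, (A i j : ℝ) * (((0 : Fin n → ℤ) j : ℤ) : ℝ) = 0
      simp
    rw [this] at hqs
    norm_num at hqs
  · push Not at hcase
    obtain ⟨i, hi⟩ := hcase
    have hi' : S p i < -1 := by
      show ∑ j, (A i j : ℝ) * p j < -1
      linarith
    obtain ⟨q, hq⟩ := exists_int_pre hA (Pi.single i (-1))
    have hq' : ∀ k, S (fun i => (q i : ℝ)) k =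
        (((Pi.single i (-1 : ℤ) : Fin n → ℤ) k : ℤ) : ℝ) := hq
    have hqs : ∑ k, S (fun i => (q i : ℝ)) k = -1 := by
      simp_rw [hq']
      rw [← Int.cast_sum, Finset.sum_pi_single']
      simp
    have hq0 := hstep q (by
      intro k
      rw [hq']
      by_cases hk : k = i
      · rw [hk, Pi.single_eq_same]
        push_cast
        nlinarith
      · rw [Pi.single_eq_of_ne hk]
        have h1 := hSj k
        have h3 := le_abs_self (S p k)
        push_cast
        nlinarith) (by
      rw [hqs]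
      have h3 := neg_abs_le (∑ j, S p j)
      nlinarith)
    have h1 := hq' i
    rw [hq0, Pi.single_eq_same] at h1
    have : S (fun i => (((0 : Fin n → ℤ) i : ℤ) : ℝ)) i = 0 := by
      show ∑ j, (A i j : ℝ) * (((0 : Fin n → ℤ) j : ℤ) : ℝ) = 0
      simp
    rw [this] at h1
    norm_num at h1

end Pool.Agent.H912R3.Ehr
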