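import Pool.Agent.H912R3.Eq.Fin

/-!
# Ehrhart's inequality with equality case: the simplex, and bodies with arbitrary barycentre
-/

set_option autoImplicit false
set_option linter.unusedSectionVars false

open scoped Pointwise Topology
open Set MeasureTheory Filter

namespace Pool.Agent.H912R3.Ehr

variable {n : ℕ}

theorem Tx_compact (n : ℕ) (v : ℝ) : IsCompact (Tx n v) := by
  refine (isCompact_Icc (a := (fun _ : Fin n => (0 : ℝ))) (b := fun _ => v)).of_isClosed_subset
    (Tx_closed n v) ?_
  rintro y ⟨h1, h2⟩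
  refine ⟨h1, fun i => ?_⟩
  exact (Finset.single_le_sum (f := fun j => y j) (fun j _ => h1 j) (Finset.mem_univ i)).trans h2

/-- linear part of the involution -/
noncomputable def Sinv (i : Fin n) : (Fin n → ℝ) →ₗ[ℝ] (Fin n → ℝ) :=
  LinearMap.id - (((LinearMap.proj i : (Fin n → ℝ) →ₗ[ℝ] ℝ) +
    ∑ j : Fin n, (LinearMap.proj j : (Fin n → ℝ) →ₗ[ℝ] ℝ)).smulRight (Pi.single i (1 : ℝ)))

theorem Sinv_apply (i : Fin n) (y : Fin n → ℝ) :
    Sinv i y = y - (y i + ∑ j, y j) • Pi.single i (1 : ℝ) := by
  simp [Sinv]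

theorem Sinv_sum (i : Fin n) (y : Fin n → ℝ) : ∑ k, Sinv i y k = -y i := by
  rw [Sinv_apply]
  simp only [Pi.sub_apply, Pi.smul_apply, smul_eq_mul, Finset.sum_sub_distrib, ← Finset.mul_sum]
  rw [Finset.sum_pi_single']
  simp

theorem Sinv_self (i : Fin n) (y : Fin n → ℝ) : Sinv i y i = -∑ j, y j := by
  rw [Sinv_apply]
  simp

theorem Sinv_ne {i k : Fin n} (h : k ≠ i) (y : Fin n → ℝ) : Sinv i y k = y k := by
  rw [Sinv_apply]
  simp [h]

theorem Sinv_Sinv (i : Fin n) (y : Fin n → ℝ) : Sinv i (Sinv i y) = y := by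
  funext k
  by_cases h : k = i
  · rw [h, Sinv_self, Sinv_sum, neg_neg]
  · rw [Sinv_ne h, Sinv_ne h]

theorem Sinv_det (i : Fin n) : |LinearMap.det (Sinv i)| = 1 := by
  have h1 : (Sinv i) ∘ₗ (Sinv i) = LinearMap.id := by
    ext1
    ext k
    simp only [LinearMap.comp_apply, LinearMap.id_apply]
    rw [Sinv_Sinv]
  have h2 : LinearMap.det (Sinv i) * LinearMap.det (Sinv i) = 1 := by
    rw [← LinearMap.det_comp, h1, LinearMap.det_id]
  have h3 : |LinearMap.det (Sinv i)| * |LinearMap.det (Sinv i)| = 1 := by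
    rw [← abs_mul, h2, abs_one]
  nlinarith [abs_nonneg (LinearMap.det (Sinv i))]

theorem simplex_centroid (i : Fin n) :
    ∫ y in Tx n (n + 1), y i = volume.real (Tx n (n + 1)) := by
  set T := Tx n ((n : ℝ) + 1) with hT
  set V := volume.real T with hV
  have hTc : IsCompact T := Tx_compact n _
  have hfin : IsFiniteMeasure (volume.restrict T) :=
    ⟨by rw [Measure.restrict_apply_univ]; exact hTc.measure_lt_top⟩
  have hrel : ∀ i : Fin n, ∫ y in T, y i = (n + 1) * V - ∑ j, ∫ y in T, y j := by
    intro i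
    have hsig : (fun y => Sinv i y + ((n : ℝ) + 1) • (Pi.single i (1 : ℝ) : Fin n → ℝ)) '' T = T := by
      have hsub : ∀ y ∈ T, Sinv i y + ((n : ℝ) + 1) • (Pi.single i (1 : ℝ) : Fin n → ℝ) ∈ T := by
        rintro y ⟨h1, h2⟩
        have hsi : (Sinv i y + ((n : ℝ) + 1) • (Pi.single i (1 : ℝ) : Fin n → ℝ)) i = n + 1 - ∑ j, y j := by
          rw [Pi.add_apply, Sinv_self]
          simp
          ring
        have hsk : ∀ k, k ≠ i → (Sinv i y + ((n : ℝ) + 1) • (Pi.single i (1 : ℝ) : Fin n → ℝ)) k = y k := by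
          intro k hk
          rw [Pi.add_apply, Sinv_ne hk]
          simp [hk]
        refine ⟨fun k => ?_, ?_⟩
        · by_cases hk : k = i
          · rw [hk, hsi]; linarith
          · rw [hsk k hk]; exact h1 k
        · simp only [Pi.add_apply, Finset.sum_add_distrib, Sinv_sum, Pi.smul_apply, smul_eq_mul,
            ← Finset.mul_sum]
          rw [Finset.sum_pi_single']
          have := h1 i
          simp
          linarith
      apply Subset.antisymm
      · rintro _ ⟨y, hy, rfl⟩
        exact hsub y hy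
      · intro y hy
        refine ⟨_, hsub y hy, ?_⟩
        show Sinv i (Sinv i y + ((n : ℝ) + 1) • (Pi.single i (1 : ℝ) : Fin n → ℝ)) +
          ((n : ℝ) + 1) • (Pi.single i (1 : ℝ) : Fin n → ℝ) = y
        rw [map_add, Sinv_Sinv, map_smul]
        have : Sinv i (Pi.single i (1 : ℝ)) = -Pi.single i (1 : ℝ) := by
          rw [Sinv_apply, Finset.sum_pi_single', Pi.single_eq_same]
          simp only [Finset.mem_univ, if_true]
          funext k
          simp only [Pi.sub_apply, Pi.smul_apply, Pi.neg_apply, smul_eq_mul]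
          ring
        rw [this, smul_neg, neg_add_cancel_right]
    have hne : LinearMap.det (Sinv i) ≠ 0 := by
      intro h
      have := Sinv_det i
      rw [h, abs_zero] at this
      norm_num at this
    have h1 := cov (Sinv i) hne (((n : ℝ) + 1) • (Pi.single i (1 : ℝ) : Fin n → ℝ)) hTc.measurableSet
      (fun y => y i)
    rw [hsig, Sinv_det, one_mul] at h1
    rw [h1]
    have h2 : ∀ y : Fin n → ℝ, (Sinv i y + ((n : ℝ) + 1) • (Pi.single i (1 : ℝ) : Fin n → ℝ)) i =
        (n + 1) - ∑ j, y j := by
      intro y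
      rw [Pi.add_apply, Sinv_self]
      simp
      ring
    simp_rw [h2]
    rw [integral_sub (integrable_const _), setIntegral_const, integral_finsetSum]
    · rw [smul_eq_mul, mul_comm]
    · intro j _
      exact (continuous_apply j).continuousOn.integrableOn_compact hTc
    · have hc : Continuous fun y : Fin n → ℝ => ∑ j, y j := by fun_prop
      exact hc.continuousOn.integrableOn_compact hTc
  set s := ∑ j, ∫ y in T, y j with hs
  have hs1 : s = n * ((n + 1) * V - s) := by
    conv_lhs => rw [hs]
    rw [Finset.sum_congr rfl fun j _ => hrel j, Finset.sum_const, Finset.card_univ,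
      Fintype.card_fin, nsmul_eq_mul]
  have hn1 : (n : ℝ) + 1 ≠ 0 := by positivity
  have hs2 : ((n : ℝ) + 1) * s = (n + 1) * (n * V) := by linarith
  have hs3 : s = n * V := mul_left_cancel₀ hn1 hs2
  rw [hrel i, hs3]
  ring

/-- bodies equivalent to the simplex -/
theorem converse {K : Set (Fin n → ℝ)} (hK : IsCompact K)
    (hL : ∀ z : Fin n → ℤ, (fun i => (z i : ℝ)) ∈ interior K → z = 0)
    {A : Matrix (Fin n) (Fin n) ℤ} {v : Fin n → ℤ} (hA : IsUnit A.det)
    (himg : (fun x : Fin n → ℝ => fun i => ∑ j, (A i j : ℝ) * x j + (v i : ℝ)) '' K =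
      Tx n (n + 1)) :
    (∀ i, ∫ x in K, x i = 0) ∧ volume.real K = ((n : ℝ) + 1) ^ n / n.factorial := by
  set S : (Fin n → ℝ) →ₗ[ℝ] (Fin n → ℝ) := Matrix.toLin' (A.map (Int.castRingHom ℝ)) with hS
  have hSx : ∀ x i, S x i = ∑ j, (A i j : ℝ) * x j := fun x i => rfl
  have hdet : |LinearMap.det S| = 1 := by
    rw [hS, LinearMap.det_toLin']
    have h2 : (A.map (Int.castRingHom ℝ)).det = ((A.det : ℤ) : ℝ) := by
      rw [← RingHom.mapMatrix_apply, ← RingHom.map_det]
      rfl
    rw [h2]
    have := Int.isUnit_iff_abs_eq.1 hA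
    exact_mod_cast this
  have hne : LinearMap.det S ≠ 0 := by
    intro h
    rw [h, abs_zero] at hdet
    norm_num at hdet
  have hinj : Function.Injective S := (LinearMap.equivOfDetNeZero S hne).injective
  set vr : Fin n → ℝ := fun i => (v i : ℝ) with hvr
  have himg' : (fun x => S x + vr) '' K = Tx n (n + 1) := himg
  have hcov := fun g => cov S hne vr hK.measurableSet g
  rw [himg', hdet] at hcov
  have hTc : IsCompact (Tx n ((n : ℝ) + 1)) := Tx_compact n _
  have hvol : volume.real K = volume.real (Tx n ((n : ℝ) + 1)) := by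
    have h1 := hcov (fun _ => (1 : ℝ))
    rw [setIntegral_const, setIntegral_const, smul_eq_mul, smul_eq_mul, mul_one, mul_one, one_mul]
      at h1
    exact h1.symm
  have hTv : volume.real (Tx n ((n : ℝ) + 1)) = ((n : ℝ) + 1) ^ n / n.factorial := by
    rw [measureReal_def, Tx_volume n (by positivity), ENNReal.toReal_ofReal (by positivity)]
  -- `v = 1`
  have hv1 : ∀ i, vr i = 1 := by
    obtain ⟨z, hz⟩ := exists_int_pre hA (fun i => 1 - v i)
    have hSz : S (fun i => (z i : ℝ)) = fun i => 1 - vr i := by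
      funext i
      rw [hSx, hz i]
      push_cast
      rfl
    have hSc : Continuous S := LinearMap.continuous_of_finiteDimensional S
    have hzint : (fun i => (z i : ℝ)) ∈ interior K := by
      have hopen : IsOpen {x | (∀ i, 0 < S x i + vr i) ∧ ∑ i, (S x i + vr i) < n + 1} := by
        have hci : ∀ i, Continuous fun x => S x i + vr i := fun i =>
          ((continuous_apply i).comp hSc).add continuous_const
        have e1 : IsOpen {x | ∀ i, 0 < S x i + vr i} := by
          rw [show {x | ∀ i, 0 < S x i + vr i} = ⋂ i, {x | 0 < S x i + vr i} by ext; simp]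
          exact isOpen_iInter_of_finite fun i => isOpen_lt continuous_const (hci i)
        exact e1.inter (isOpen_lt (continuous_finsetSum _ fun i _ => hci i) continuous_const)
      refine interior_maximal ?_ hopen ?_
      · rintro x ⟨h1, h2⟩
        have h3 : S x + vr ∈ Tx n ((n : ℝ) + 1) := ⟨fun i => (h1 i).le, h2.le⟩
        rw [← himg'] at h3
        obtain ⟨y, hy, hxy⟩ := h3
        have : y = x := hinj (add_right_cancel hxy)
        rwa [← this]
      · have e : ∀ i, S (fun i => (z i : ℝ)) i + vr i = 1 := by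
          intro i; rw [hSz]; ring
        refine ⟨fun i => by rw [e]; exact one_pos, ?_⟩
        simp_rw [e]
        simp
    have hz0 := hL z hzint
    intro i
    have h1 := congrFun hSz i
    rw [hz0] at h1
    have h2 : S (fun i => (((0 : Fin n → ℤ) i : ℤ) : ℝ)) i = 0 := by
      rw [hSx]; simp
    rw [h2] at h1
    linarith
  refine ⟨?_, by rw [hvol, hTv]⟩
  have hAI : ∀ i, ∑ j, (A i j : ℝ) * ∫ x in K, x j = 0 := by
    intro i
    have h1 := hcov (fun y => y i)
    rw [simplex_centroid i, one_mul] at h1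
    have hci : ∀ j, Integrable (fun x : Fin n → ℝ => x j) (volume.restrict K) := fun j =>
      (continuous_apply j).continuousOn.integrableOn_compact hK
    have hfin : IsFiniteMeasure (volume.restrict K) :=
      ⟨by rw [Measure.restrict_apply_univ]; exact hK.measure_lt_top⟩
    have h2 : ∫ x in K, (S x + vr) i = ∑ j, (A i j : ℝ) * (∫ x in K, x j) + volume.real K := by
      have e : ∀ x, (S x + vr) i = ∑ j, (A i j : ℝ) * x j + 1 := by
        intro x; rw [Pi.add_apply, hSx, hv1]
      simp_rw [e]
      rw [integral_add (integrable_finsetSum _ fun j _ => (hci j).const_mul _) (integrable_const _),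
        integral_finsetSum _ (fun j _ => (hci j).const_mul _), setIntegral_const, smul_eq_mul,
        mul_one]
      congr 1
      refine Finset.sum_congr rfl fun j _ => ?_
      rw [integral_const_mul]
    rw [h2, hvol] at h1
    linarith
  have hker : S (fun j => ∫ x in K, x j) = S 0 := by
    rw [map_zero]
    funext i
    rw [hSx, hAI i]
    rfl
  intro i
  exact congrFun (hinj hker) i

/-- the scaled translate with barycentre `0` -/
theorem shrink {K : Set (Fin n → ℝ)} (hK : IsCompact K) (hKc : Convex ℝ K)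
    (hne : (interior K).Nonempty) {b : Fin n → ℝ}
    (hb : b = (volume K).toReal⁻¹ • (∫ x in K, x)) {R : ℝ} (hR0 : 0 < R) :
    IsCompact ((fun x => R • x - R • b) '' K) ∧ Convex ℝ ((fun x => R • x - R • b) '' K) ∧
    (∀ i, ∫ x in (fun x => R • x - R • b) '' K, x i = 0) ∧
    (0 : Fin n → ℝ) ∈ interior ((fun x => R • x - R • b) '' K) ∧
    volume.real ((fun x => R • x - R • b) '' K) = R ^ n * volume.real K := by
  have hVpos : 0 < (volume K).toReal := by
    have h1 : 0 < volume K := by
      have : 0 < volume (interior K) := isOpen_interior.measure_pos volume hne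
      exact this.trans_le (measure_mono interior_subset)
    exact ENNReal.toReal_pos h1.ne' hK.measure_lt_top.ne
  have hbi : ∀ i, (volume K).toReal * b i = ∫ x in K, x i := by
    intro i
    rw [hb, Pi.smul_apply, smul_eq_mul, ← mul_assoc, mul_inv_cancel₀ hVpos.ne', one_mul,
      eval_int hK]
  set S : (Fin n → ℝ) →ₗ[ℝ] (Fin n → ℝ) := R • LinearMap.id with hS
  have hdet : LinearMap.det S = R ^ n := by
    rw [hS, LinearMap.det_smul, LinearMap.det_id, mul_one, Module.finrank_fintype_fun_eq_card,
      Fintype.card_fin]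
  have hdne : LinearMap.det S ≠ 0 := by rw [hdet]; positivity
  have hfun : (fun x => R • x - R • b) = fun x => S x + (-(R • b)) := by
    funext x
    rw [hS]
    simp [sub_eq_add_neg]
  have habs : |LinearMap.det S| = R ^ n := by rw [hdet, abs_of_pos (by positivity)]
  have hcov := fun g => cov S hdne (-(R • b)) hK.measurableSet g
  rw [← hfun, habs] at hcov
  have hci : ∀ j, Integrable (fun x : Fin n → ℝ => x j) (volume.restrict K) := fun j =>
    (continuous_apply j).continuousOn.integrableOn_compact hK
  have hfin : IsFiniteMeasure (volume.restrict K) :=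
    ⟨by rw [Measure.restrict_apply_univ]; exact hK.measure_lt_top⟩
  refine ⟨?_, ?_, ?_, ?_, ?_⟩
  · exact hK.image (by fun_prop)
  · rintro _ ⟨x, hx, rfl⟩ _ ⟨y, hy, rfl⟩ p r hp hr hpr
    refine ⟨p • x + r • y, hKc hx hy hp hr hpr, ?_⟩
    funext i
    simp only [Pi.sub_apply, Pi.add_apply, Pi.smul_apply, smul_eq_mul]
    linear_combination (R * b i) * hpr
  · intro i
    rw [hcov (fun x => x i)]
    have e : ∀ x, (S x + -(R • b)) i = R * x i - R * b i := by
      intro x
      rw [hS]
      simp [sub_eq_add_neg]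
    simp_rw [e]
    rw [integral_sub ((hci i).const_mul _) (integrable_const _), integral_const_mul,
      setIntegral_const, smul_eq_mul, ← hbi i, measureReal_def]
    ring
  · have hbint : b ∈ interior K := by rw [hb]; exact centroid_mem_interior hK hKc hne
    have hopen : IsOpen {z : Fin n → ℝ | R⁻¹ • z + b ∈ interior K} :=
      isOpen_interior.preimage (by fun_prop)
    refine interior_maximal ?_ hopen ?_
    · intro z hz
      refine ⟨R⁻¹ • z + b, interior_subset hz, ?_⟩
      show R • (R⁻¹ • z + b) - R • b = z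
      rw [smul_add, smul_smul, mul_inv_cancel₀ hR0.ne', one_smul, add_sub_cancel_right]
    · show R⁻¹ • (0 : Fin n → ℝ) + b ∈ interior K
      rw [smul_zero, zero_add]
      exact hbint
  · have h1 := hcov (fun _ => (1 : ℝ))
    rw [setIntegral_const, setIntegral_const, smul_eq_mul, smul_eq_mul, mul_one, mul_one] at h1
    exact h1

/-- the exit point of the ray from the barycentre through the origin -/
theorem exists_exit {K : Set (Fin n → ℝ)} (hK : IsCompact K) (h0 : (0 : Fin n → ℝ) ∈ interior K)
    {b : Fin n → ℝ} (hb0 : b ≠ 0) : ∃ t : ℝ, 1 < t ∧ b - t • b ∈ frontier K := by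
  have hcont : Continuous fun t : ℝ => b - t • b := by fun_prop
  set T : Set ℝ := (fun t : ℝ => b - t • b) ⁻¹' K with hT
  have hTcl : IsClosed T := hK.isClosed.preimage hcont
  have hnb : 0 < ‖b‖ := norm_pos_iff.2 hb0
  have hTb : Bornology.IsBounded T := by
    obtain ⟨R, hR⟩ := hK.isBounded.subset_closedBall (0 : Fin n → ℝ)
    refine (Metric.isBounded_closedBall (x := (0 : ℝ)) (r := (R + ‖b‖) / ‖b‖)).subset ?_
    intro t ht
    have h1 := hR ht
    rw [mem_closedBall_zero_iff] at h1
    rw [mem_closedBall_zero_iff, Real.norm_eq_abs, le_div_iff₀ hnb]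
    have h2 : ‖t • b‖ ≤ ‖b - t • b‖ + ‖b‖ := by
      have : t • b = b - (b - t • b) := by abel
      calc ‖t • b‖ = ‖b - (b - t • b)‖ := by rw [← this]
        _ ≤ ‖b‖ + ‖b - t • b‖ := norm_sub_le _ _
        _ = _ := add_comm _ _
    rw [norm_smul, Real.norm_eq_abs] at h2
    linarith
  have hTc : IsCompact T := Metric.isCompact_of_isClosed_isBounded hTcl hTb
  have h1T : (1 : ℝ) ∈ T := by
    show b - (1 : ℝ) • b ∈ K
    rw [one_smul, sub_self]
    exact interior_subset h0
  obtain ⟨t, htT, htmax⟩ := hTc.exists_isGreatest ⟨1, h1T⟩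
  have hnotint : b - t • b ∉ interior K := by
    intro hint
    have h1 : ∀ᶠ s in 𝓝 t, b - s • b ∈ interior K :=
      hcont.continuousAt.eventually (isOpen_interior.mem_nhds hint)
    obtain ⟨η, hη, h2⟩ := Metric.eventually_nhds_iff.1 h1
    have h4 : dist (t + η / 2) t < η := by
      rw [Real.dist_eq, add_sub_cancel_left, abs_of_pos (by positivity)]; linarith
    have h5 : b - (t + η / 2) • b ∈ interior K := h2 h4
    have h3 : t + η / 2 ∈ T := show b - (t + η / 2) • b ∈ K from interior_subset h5
    have := htmax h3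
    linarith
  refine ⟨t, ?_, ?_⟩
  · refine lt_of_le_of_ne (htmax h1T) fun h => hnotint ?_
    rw [← h, one_smul, sub_self]
    exact h0
  · rw [hK.isClosed.frontier_eq]
    exact ⟨htT, hnotint⟩

end Pool.Agent.H912R3.Ehr
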