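import Pool.Agent.H912R3.Eq.Cone
import Pool.Agent.H712R2.MA.S

/-!
# Equality in Ehrhart's volume inequality: the lattice
-/

set_option autoImplicit false
set_option linter.unusedSectionVars false

open scoped Pointwise Topology
open Set MeasureTheory Filter

namespace Pool.Agent.H912R3.Ehr

variable {d : ℕ}

/-- the standard simplex of size `v` -/
def Tx (d : ℕ) (v : ℝ) : Set (Fin d → ℝ) := {y | (∀ i, 0 ≤ y i) ∧ ∑ i, y i ≤ v}

theorem Tx_convex (d : ℕ) (v : ℝ) : Convex ℝ (Tx d v) := by
  rintro x ⟨hx1, hx2⟩ y ⟨hy1, hy2⟩ p r hp hr hpr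
  refine ⟨fun i => ?_, ?_⟩
  · have := mul_nonneg hp (hx1 i)
    have := mul_nonneg hr (hy1 i)
    simp only [Pi.add_apply, Pi.smul_apply, smul_eq_mul]
    linarith
  · have e : ∑ i, (p • x + r • y) i = p * ∑ i, x i + r * ∑ i, y i := by
      rw [Finset.mul_sum, Finset.mul_sum, ← Finset.sum_add_distrib]
      rfl
    rw [e]
    calc p * ∑ i, x i + r * ∑ i, y i ≤ p * v + r * v := by gcongr
      _ = v := by rw [← add_mul, hpr, one_mul]

theorem Tx_closed (d : ℕ) (v : ℝ) : IsClosed (Tx d v) := by
  have h1 : IsClosed {y : Fin d → ℝ | ∀ i, 0 ≤ y i} := by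
    rw [show {y : Fin d → ℝ | ∀ i, 0 ≤ y i} = ⋂ i, {y | 0 ≤ y i} by ext; simp]
    exact isClosed_iInter fun i => isClosed_le continuous_const (continuous_apply i)
  exact h1.inter (isClosed_le (continuous_finsetSum _ fun i _ => continuous_apply i)
    continuous_const)

theorem Tx_volume (d : ℕ) {v : ℝ} (hv : 0 ≤ v) :
    volume (Tx d v) = ENNReal.ofReal (v ^ d / d.factorial) := by
  rw [← H712MA.TS.vol_Sx d v hv]
  refine measure_congr ?_
  have hsub : H712MA.TS.Sx d v ⊆ Tx d v := fun x hx => ⟨fun i => (hx.1 i).le, hx.2⟩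
  refine (Filter.EventuallyLE.antisymm ?_ hsub.eventuallyLE)
  have hnull : volume (⋃ i : Fin d, {x : Fin d → ℝ | x i = 0}) = 0 := by
    rw [measure_iUnion_null_iff]
    intro i
    rw [volume_pi]
    exact Measure.pi_hyperplane (fun _ : Fin d => (volume : Measure ℝ)) i 0
  rw [ae_le_set]
  refine measure_mono_null ?_ hnull
  rintro x ⟨hx1, hx2⟩
  by_contra hcon
  apply hx2
  refine ⟨fun i => lt_of_le_of_ne (hx1.1 i) fun h => hcon ?_, hx1.2⟩
  exact mem_iUnion.2 ⟨i, h.symm⟩

/-- the linear map attached to the functionals -/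
noncomputable def Mm (L : Fin (d + 1) → (Fin d → ℝ) →L[ℝ] ℝ) : (Fin d → ℝ) →ₗ[ℝ] (Fin d → ℝ) :=
  LinearMap.pi fun i : Fin d => -((L i.succ : (Fin d → ℝ) →L[ℝ] ℝ) : (Fin d → ℝ) →ₗ[ℝ] ℝ)

theorem Mm_apply (L : Fin (d + 1) → (Fin d → ℝ) →L[ℝ] ℝ) (x : Fin d → ℝ) (i : Fin d) :
    Mm L x i = -L i.succ x := rfl

theorem lattice_part {K : Set (Fin d → ℝ)} (hK : IsCompact K)
    (hL : ∀ z : Fin d → ℤ, (fun i => (z i : ℝ)) ∈ interior K → z = 0)
    (hV : volume.real K = ((d : ℝ) + 1) ^ d / d.factorial)
    (L : Fin (d + 1) → (Fin d → ℝ) →L[ℝ] ℝ) (hsum : ∀ x, ∑ i, L i x = 0)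
    (hKL : K = {x | ∀ i, L i x ≤ 1}) :
    ∃ A : Matrix (Fin d) (Fin d) ℤ, IsUnit A.det ∧
      K = {x | (fun i => ∑ j, (A i j : ℝ) * x j + 1) ∈ Tx d (d + 1)} := by
  classical
  have hd1 : (0 : ℝ) < d + 1 := by positivity
  set M := Mm L with hM
  have hMi : ∀ x i, M x i = -L i.succ x := fun x i => rfl
  have hL0 : ∀ x, L 0 x = ∑ i, M x i := by
    intro x
    have h1 := hsum x
    rw [Fin.sum_univ_succ] at h1
    have h2 : ∑ i, M x i = -∑ i : Fin d, L i.succ x := by
      rw [← Finset.sum_neg_distrib]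
      rfl
    linarith
  have hKM : ∀ x, x ∈ K ↔ (∀ i, -1 ≤ M x i) ∧ ∑ i, M x i ≤ 1 := by
    intro x
    rw [hKL, mem_ofPred_eq, Fin.forall_fin_succ, hL0]
    constructor
    · rintro ⟨h1, h2⟩
      exact ⟨fun i => by rw [hMi]; linarith [h2 i], h1⟩
    · rintro ⟨h1, h2⟩
      exact ⟨h2, fun i => by have := h1 i; rw [hMi] at this; linarith⟩
  have hMc : Continuous M := LinearMap.continuous_of_finiteDimensional M
  have hMci : ∀ i, Continuous fun x => M x i := fun i => (continuous_apply i).comp hMc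
  have hint : ∀ x, (∀ i, -1 < M x i) → ∑ i, M x i < 1 → x ∈ interior K := by
    intro x h1 h2
    have hopen : IsOpen {x | (∀ i, -1 < M x i) ∧ ∑ i, M x i < 1} := by
      have e1 : IsOpen {x | ∀ i, -1 < M x i} := by
        rw [show {x | ∀ i, -1 < M x i} = ⋂ i, {x | -1 < M x i} by ext; simp]
        exact isOpen_iInter_of_finite fun i => isOpen_lt continuous_const (hMci i)
      exact e1.inter (isOpen_lt (continuous_finsetSum _ fun i _ => hMci i) continuous_const)
    refine interior_maximal ?_ hopen ⟨h1, h2⟩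
    intro y hy
    rw [hKM]
    exact ⟨fun i => (hy.1 i).le, hy.2.le⟩
  -- injectivity
  have hinj : Function.Injective M := by
    rw [← LinearMap.ker_eq_bot, LinearMap.ker_eq_bot']
    intro x hx
    obtain ⟨R, hR⟩ := hK.isBounded.subset_closedBall (0 : Fin d → ℝ)
    by_contra hne
    have hnx : 0 < ‖x‖ := norm_pos_iff.2 hne
    have h1 : ((|R| + 1) / ‖x‖) • x ∈ K := by
      rw [hKM]
      have h2 : M (((|R| + 1) / ‖x‖) • x) = 0 := by rw [map_smul, hx, smul_zero]
      rw [h2]
      simp
    have h3 := hR h1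
    rw [mem_closedBall_zero_iff, norm_smul, Real.norm_eq_abs,
      abs_of_nonneg (by positivity), div_mul_cancel₀ _ hnx.ne'] at h3
    linarith [le_abs_self R]
  set Me : (Fin d → ℝ) ≃ₗ[ℝ] (Fin d → ℝ) := LinearEquiv.ofInjectiveEndo M hinj with hMe
  have hMea : ∀ x, Me x = M x := fun x => rfl
  have hdet : LinearMap.det M ≠ 0 := by
    exact (LinearEquiv.isUnit_det' Me).ne_zero
  -- the determinant is `±1`
  have hvolK : volume K = ENNReal.ofReal |(LinearMap.det M)⁻¹| *
      ENNReal.ofReal (((d : ℝ) + 1) ^ d / d.factorial) := by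
    have e1 : K = M ⁻¹' ((fun y => y + (fun _ => (1 : ℝ))) ⁻¹' (Tx d (d + 1))) := by
      ext x
      rw [hKM, mem_preimage, mem_preimage, Tx, mem_ofPred_eq]
      simp only [Pi.add_apply, Finset.sum_add_distrib, Finset.sum_const, Finset.card_univ,
        Fintype.card_fin, nsmul_eq_mul, mul_one]
      constructor
      · rintro ⟨h1, h2⟩
        exact ⟨fun i => by linarith [h1 i], by linarith⟩
      · rintro ⟨h1, h2⟩
        exact ⟨fun i => by linarith [h1 i], by linarith⟩
    rw [e1, Measure.addHaar_preimage_linearMap _ hdet, measure_preimage_add_right,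
      Tx_volume d hd1.le]
  have hVpos : (0 : ℝ) < ((d : ℝ) + 1) ^ d / d.factorial := by positivity
  have habs : |LinearMap.det M| = 1 := by
    rw [measureReal_def, hvolK, ENNReal.toReal_mul, ENNReal.toReal_ofReal (abs_nonneg _),
      ENNReal.toReal_ofReal hVpos.le] at hV
    have h1 : |(LinearMap.det M)⁻¹| = 1 := by
      have h2 : |(LinearMap.det M)⁻¹| * (((d : ℝ) + 1) ^ d / d.factorial) =
          1 * (((d : ℝ) + 1) ^ d / d.factorial) := by rw [hV, one_mul]
      exact mul_right_cancel₀ hVpos.ne' h2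
    rw [abs_inv] at h1
    exact inv_eq_one.1 h1
  -- small integer vectors
  have hsmall : ∀ z : Fin d → ℤ, (∀ i, |M (fun i => (z i : ℝ)) i| < 1) → z = 0 := by
    intro z hz
    rcases le_or_gt (∑ i, M (fun i => (z i : ℝ)) i) 0 with h | h
    · exact hL z (hint _ (fun i => (abs_lt.1 (hz i)).1) (by linarith))
    · have h1 : (-z) = 0 := by
        refine hL (-z) ?_
        have e : (fun i => (((-z) i : ℤ) : ℝ)) = -(fun i => (z i : ℝ)) := by
          funext i; simp
        rw [e]
        refine hint _ (fun i => ?_) ?_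
        · rw [map_neg, Pi.neg_apply]
          linarith [(abs_lt.1 (hz i)).2]
        · have e2 : ∑ i, M (-(fun i => (z i : ℝ))) i = -∑ i, M (fun i => (z i : ℝ)) i := by
            rw [← Finset.sum_neg_distrib]
            refine Finset.sum_congr rfl fun i _ => ?_
            rw [map_neg, Pi.neg_apply]
          rw [e2]; linarith
      have := congrArg Neg.neg h1
      simpa using this
  -- Blichfeldt
  have hbl : ∀ (i : Fin d) (δ : ℝ), 0 < δ → δ ≤ 1 → ∃ z : Fin d → ℤ,
      (-1 - δ < M (fun i => (z i : ℝ)) i ∧ M (fun i => (z i : ℝ)) i < 0) ∧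
      ∀ j, j ≠ i → -δ < M (fun i => (z i : ℝ)) j ∧ M (fun i => (z i : ℝ)) j < 1 := by
    intro i δ hδ hδ1
    set P : Set (Fin d → ℝ) := M ⁻¹' (Set.pi univ fun _ => Ico (0 : ℝ) 1) with hP
    set O : Set (Fin d → ℝ) := M ⁻¹' (Set.pi univ fun j => if j = i then Ioo (-δ) 0 else Ioo (1 - δ) 1)
      with hO
    have hPm : MeasurableSet P := hMc.measurable (MeasurableSet.univ_pi fun _ => measurableSet_Ico)
    have hPv : volume P = 1 := by
      rw [hP, Measure.addHaar_preimage_linearMap _ hdet, Real.volume_pi_Ico, abs_inv, habs]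
      simp
    have hOo : IsOpen O := by
      refine (isOpen_set_pi finite_univ fun j _ => ?_).preimage hMc
      split_ifs <;> exact isOpen_Ioo
    have hOn : O.Nonempty := by
      obtain ⟨x, hx⟩ : ∃ x, M x = fun j => if j = i then -δ / 2 else 1 - δ / 2 := ⟨Me.symm _, by
        rw [← hMea, LinearEquiv.apply_symm_apply]⟩
      refine ⟨x, ?_⟩
      rw [hO, mem_preimage, hx]
      intro j _
      by_cases hj : j = i
      · simp only [hj, if_true]
        constructor <;> linarith
      · simp only [hj, if_false]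
        constructor <;> linarith
    have hOP : Disjoint P O := by
      rw [Set.disjoint_left]
      intro x hx hx'
      have h1 := (hx i (mem_univ i)).1
      have h2 := hx' i (mem_univ i)
      simp only [if_true] at h2
      exact absurd h2.2 (not_lt.2 h1)
    have hlt : volume (ZSpan.fundamentalDomain (Pi.basisFun ℝ (Fin d))) < volume (P ∪ O) := by
      rw [measure_union hOP hOo.measurableSet, hPv, ZSpan.volume_fundamentalDomain]
      have h1 : (Matrix.of (Pi.basisFun ℝ (Fin d))).det = 1 := by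
        have : (Matrix.of (Pi.basisFun ℝ (Fin d)) : Matrix (Fin d) (Fin d) ℝ) = 1 := by
          ext i j
          simp [Matrix.one_apply, Pi.single_apply, eq_comm]
        rw [this, Matrix.det_one]
      rw [h1, abs_one, ENNReal.ofReal_one]
      exact ENNReal.lt_add_right ENNReal.one_ne_top (hOo.measure_pos volume hOn).ne'
    have : Countable (Submodule.span ℤ (range (Pi.basisFun ℝ (Fin d)))).toAddSubgroup :=
      inferInstanceAs (Countable (Submodule.span ℤ (range (Pi.basisFun ℝ (Fin d)))))
    obtain ⟨⟨a, ha⟩, ⟨b, hb⟩, hab, hnd⟩ := exists_pair_mem_lattice_not_disjoint_vadd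
      (ZSpan.isAddFundamentalDomain' (Pi.basisFun ℝ (Fin d)) volume)
      (hPm.union hOo.measurableSet).nullMeasurableSet hlt
    obtain ⟨_, ⟨p, hp, rfl⟩, ⟨p', hp', hpp⟩⟩ := Set.not_disjoint_iff.mp hnd
    have hpp' : b + p' = a + p := hpp
    have hint' : ∀ v ∈ Submodule.span ℤ (range (Pi.basisFun ℝ (Fin d))), ∀ j, ∃ m : ℤ, (m : ℝ) = v j := by
      intro v hv j
      rw [(Pi.basisFun ℝ (Fin d)).mem_span_iff_repr_mem ℤ] at hv
      obtain ⟨m, hm⟩ := hv j
      exact ⟨m, by simpa using hm⟩
    have hba : b - a ∈ Submodule.span ℤ (range (Pi.basisFun ℝ (Fin d))) := Submodule.sub_mem _ hb ha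
    choose z hz using hint' _ hba
    have hze : (fun i => (z i : ℝ)) = p - p' := by
      funext j
      rw [hz j]
      have := congrFun hpp' j
      simp only [Pi.add_apply] at this
      simp only [Pi.sub_apply]
      linarith
    have hzne : z ≠ 0 := by
      intro h
      apply hab
      have : b - a = 0 := by
        funext j
        rw [← hz j, h]
        simp
      exact Subtype.ext (sub_eq_zero.1 this).symm
    have hMz : ∀ j, M (fun i => (z i : ℝ)) j = M p j - M p' j := by
      intro j; rw [hze, map_sub, Pi.sub_apply]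
    rcases hp with hp | hp <;> rcases hp' with hp' | hp'
    · exfalso
      apply hzne
      refine hsmall z fun j => ?_
      rw [hMz, abs_lt]
      have h1 := hp j (mem_univ j)
      have h2 := hp' j (mem_univ j)
      constructor <;> linarith [h1.1, h1.2, h2.1, h2.2]
    · -- `p ∈ P`, `p' ∈ O`: use `-z`
      refine ⟨-z, ?_, ?_⟩
      · have e : (fun i => (((-z) i : ℤ) : ℝ)) = -(fun i => (z i : ℝ)) := by
          funext i; simp
        rw [e, map_neg, Pi.neg_apply, hMz]
        have h1 := hp i (mem_univ i)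
        have h2 := hp' i (mem_univ i)
        simp only [if_true] at h2
        constructor <;> linarith [h1.1, h1.2, h2.1, h2.2]
      · intro j hj
        have e : (fun i => (((-z) i : ℤ) : ℝ)) = -(fun i => (z i : ℝ)) := by
          funext i; simp
        rw [e, map_neg, Pi.neg_apply, hMz]
        have h1 := hp j (mem_univ j)
        have h2 := hp' j (mem_univ j)
        simp only [hj, if_false] at h2
        constructor <;> linarith [h1.1, h1.2, h2.1, h2.2]
    · refine ⟨z, ?_, ?_⟩
      · rw [hMz]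
        have h1 := hp i (mem_univ i)
        have h2 := hp' i (mem_univ i)
        simp only [if_true] at h1
        constructor <;> linarith [h1.1, h1.2, h2.1, h2.2]
      · intro j hj
        rw [hMz]
        have h1 := hp j (mem_univ j)
        have h2 := hp' j (mem_univ j)
        simp only [hj, if_false] at h1
        constructor <;> linarith [h1.1, h1.2, h2.1, h2.2]
    · exfalso
      apply hzne
      refine hsmall z fun j => ?_
      rw [hMz, abs_lt]
      have h1 := hp j (mem_univ j)
      have h2 := hp' j (mem_univ j)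
      by_cases hj : j = i
      · simp only [hj, if_true] at h1 h2
        rw [hj]
        constructor <;> linarith [h1.1, h1.2, h2.1, h2.2]
      · simp only [hj, if_false] at h1 h2
        constructor <;> linarith [h1.1, h1.2, h2.1, h2.2]
  -- a bound for the integer vectors
  obtain ⟨N, hN⟩ : ∃ N : ℕ, ∀ z : Fin d → ℤ, (∀ j, |M (fun i => (z i : ℝ)) j| ≤ 2) →
      z ∈ Finset.Icc (fun _ : Fin d => -(N : ℤ)) (fun _ => (N : ℤ)) := by
    have hMs : Continuous Me.symm := LinearMap.continuous_of_finiteDimensional (Me.symm : (Fin d → ℝ) →ₗ[ℝ] (Fin d → ℝ))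
    have hcp : IsCompact (Me.symm '' (Metric.closedBall (0 : Fin d → ℝ) 2)) :=
      (isCompact_closedBall _ _).image hMs
    obtain ⟨R, hR⟩ := hcp.isBounded.subset_closedBall (0 : Fin d → ℝ)
    obtain ⟨N, hN⟩ := exists_nat_ge R
    refine ⟨N, fun z hz => ?_⟩
    have h1 : (fun i => (z i : ℝ)) ∈ Me.symm '' (Metric.closedBall (0 : Fin d → ℝ) 2) := by
      refine ⟨M (fun i => (z i : ℝ)), ?_, ?_⟩
      · rw [mem_closedBall_zero_iff, pi_norm_le_iff_of_nonneg (by norm_num)]
        exact hz
      · rw [← hMea, LinearEquiv.symm_apply_apply]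
    have h2 := hR h1
    rw [mem_closedBall_zero_iff] at h2
    rw [Finset.mem_Icc]
    constructor
    · intro j
      have h3 := (norm_le_pi_norm (fun i => (z i : ℝ)) j).trans (h2.trans hN)
      have h4 := (abs_le.1 h3).1
      exact_mod_cast h4
    · intro j
      have h3 := (norm_le_pi_norm (fun i => (z i : ℝ)) j).trans (h2.trans hN)
      have h4 := (abs_le.1 h3).2
      exact_mod_cast h4
  -- limit
  have hlim : ∀ i : Fin d, ∃ z : Fin d → ℤ,
      (-1 ≤ M (fun i => (z i : ℝ)) i ∧ M (fun i => (z i : ℝ)) i < 0) ∧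
      ∀ j, j ≠ i → 0 ≤ M (fun i => (z i : ℝ)) j ∧ M (fun i => (z i : ℝ)) j < 1 := by
    intro i
    have key : ∃ z : Fin d → ℤ, ∀ ε : ℝ, 0 < ε → ∃ δ : ℝ, 0 < δ ∧ δ < ε ∧
        (-1 - δ < M (fun i => (z i : ℝ)) i ∧ M (fun i => (z i : ℝ)) i < 0) ∧
        ∀ j, j ≠ i → -δ < M (fun i => (z i : ℝ)) j ∧ M (fun i => (z i : ℝ)) j < 1 := by
      by_contra hcon
      push Not at hcon
      choose ε hε hε' using hcon
      set Z0 := Finset.Icc (fun _ : Fin d => -(N : ℤ)) (fun _ => (N : ℤ)) with hZ0
      have h0Z : (0 : Fin d → ℤ) ∈ Z0 := by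
        rw [hZ0, Finset.mem_Icc]
        constructor <;> intro j <;> simp
      obtain ⟨z0, _, hz0⟩ := Z0.exists_min_image ε ⟨0, h0Z⟩
      set δ : ℝ := min (ε z0 / 2) 1 with hδ
      have hδ0 : 0 < δ := lt_min (by have := hε z0; positivity) one_pos
      obtain ⟨z, hz1, hz2⟩ := hbl i δ hδ0 (min_le_right _ _)
      have hδ1 : δ ≤ 1 := min_le_right _ _
      have hzZ : z ∈ Z0 := by
        refine hN z fun j => ?_
        by_cases hj : j = i
        · rw [hj, abs_le]; constructor <;> linarith [hz1.1, hz1.2]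
        · have := hz2 j hj
          rw [abs_le]; constructor <;> linarith [this.1, this.2]
      have h1 : δ < ε z := by
        have h2 := hz0 z hzZ
        have h3 : δ ≤ ε z0 / 2 := min_le_left _ _
        have := hε z0
        linarith
      obtain ⟨j, hj, hj2⟩ := hε' z δ hδ0 h1 hz1
      have := hz2 j hj
      exact absurd this.2 (not_lt.2 (hj2 this.1))
    obtain ⟨z, hz⟩ := key
    refine ⟨z, ⟨?_, ?_⟩, ?_⟩
    · refine le_of_forall_pos_lt_add fun ε hε => ?_
      obtain ⟨δ, hδ, hδε, h1, -⟩ := hz ε hε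
      linarith [h1.1]
    · obtain ⟨δ, hδ, hδε, h1, -⟩ := hz 1 one_pos
      exact h1.2
    · intro j hj
      constructor
      · refine le_of_forall_pos_lt_add fun ε hε => ?_
        obtain ⟨δ, hδ, hδε, -, h2⟩ := hz ε hε
        linarith [(h2 j hj).1]
      · obtain ⟨δ, hδ, hδε, -, h2⟩ := hz 1 one_pos
        exact (h2 j hj).2
  -- the dual basis is integral
  have hbasis : ∀ i : Fin d, ∃ z : Fin d → ℤ, M (fun i => (z i : ℝ)) = Pi.single i 1 := by
    intro i
    obtain ⟨z, hz1, hz2⟩ := hlim i
    have hai : M (fun i => (z i : ℝ)) i = -1 := by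
      refine le_antisymm ?_ hz1.1
      by_contra hcon
      push Not at hcon
      have hz0 : z = 0 := by
        refine hsmall z fun j => ?_
        rw [abs_lt]
        by_cases hj : j = i
        · rw [hj]; constructor <;> linarith [hz1.2]
        · have := hz2 j hj
          constructor <;> linarith [this.1, this.2]
      have : M (fun i => (z i : ℝ)) i = 0 := by
        rw [hz0]
        have e : (fun i : Fin d => (((0 : Fin d → ℤ) i : ℤ) : ℝ)) = 0 := by funext i; simp
        rw [e, map_zero]; rfl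
      linarith [hz1.2]
    have e : (fun i => (((-z) i : ℤ) : ℝ)) = -(fun i => (z i : ℝ)) := by
      funext i; simp
    have hsumle : ∑ j ∈ Finset.univ.erase i, M (fun i => (z i : ℝ)) j ≤ 0 := by
      by_contra hcon
      push Not at hcon
      have h1 : (-z) = 0 := by
        refine hL (-z) ?_
        rw [e]
        refine hint _ (fun j => ?_) ?_
        · rw [map_neg, Pi.neg_apply]
          by_cases hj : j = i
          · rw [hj, hai]; norm_num
          · linarith [(hz2 j hj).2]
        · have e2 : ∑ j, M (-(fun i => (z i : ℝ))) j = -∑ j, M (fun i => (z i : ℝ)) j := by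
            rw [← Finset.sum_neg_distrib]
            refine Finset.sum_congr rfl fun i _ => ?_
            rw [map_neg, Pi.neg_apply]
          rw [e2, ← Finset.add_sum_erase _ _ (Finset.mem_univ i), hai]
          linarith
      have hz0 : z = 0 := by
        have := congrArg Neg.neg h1
        simpa using this
      have : M (fun i => (z i : ℝ)) i = 0 := by
        rw [hz0]
        have e : (fun i : Fin d => (((0 : Fin d → ℤ) i : ℤ) : ℝ)) = 0 := by funext i; simp
        rw [e, map_zero]; rfl
      linarith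
    have hzero : ∀ j, j ≠ i → M (fun i => (z i : ℝ)) j = 0 := by
      intro j hj
      have h1 := Finset.single_le_sum (f := fun j => M (fun i => (z i : ℝ)) j)
        (s := Finset.univ.erase i)
        (fun k hk => (hz2 k (Finset.ne_of_mem_erase hk)).1) (Finset.mem_erase.2 ⟨hj, Finset.mem_univ j⟩)
      exact le_antisymm (h1.trans hsumle) (hz2 j hj).1
    refine ⟨-z, ?_⟩
    rw [e, map_neg]
    funext j
    rw [Pi.neg_apply]
    by_cases hj : j = i
    · rw [hj, hai, Pi.single_eq_same, neg_neg]
    · rw [hzero j hj, Pi.single_eq_of_ne hj, neg_zero]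
  choose p hp using hbasis
  -- matrices
  set Mt : Matrix (Fin d) (Fin d) ℝ := LinearMap.toMatrix' M with hMt
  set Pz : Matrix (Fin d) (Fin d) ℤ := Matrix.of fun j i => p i j with hPz
  have hMP : Mt * Pz.map (Int.castRingHom ℝ) = 1 := by
    ext a b
    have h1 : (Mt * Pz.map (Int.castRingHom ℝ)) a b = (Mt.mulVec (fun j => (p b j : ℝ))) a := by
      rw [Matrix.mul_apply]
      rfl
    rw [h1, hMt, LinearMap.toMatrix'_mulVec, hp b, Matrix.one_apply, Pi.single_apply]
  have hMtdet : |Mt.det| = 1 := by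
    rw [hMt, LinearMap.det_toMatrix']
    exact habs
  have hPdet : IsUnit Pz.det := by
    have h1 := congrArg Matrix.det hMP
    rw [Matrix.det_mul, Matrix.det_one] at h1
    have h2 : (Pz.map (Int.castRingHom ℝ)).det = ((Pz.det : ℤ) : ℝ) := by
      rw [← RingHom.mapMatrix_apply, ← RingHom.map_det]
      rfl
    rw [h2] at h1
    have h3 : |((Pz.det : ℤ) : ℝ)| = 1 := by
      have := congrArg abs h1
      rw [abs_mul, hMtdet, one_mul, abs_one] at this
      exact this
    rw [Int.isUnit_iff_abs_eq]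
    exact_mod_cast h3
  refine ⟨Pz⁻¹, ?_, ?_⟩
  · exact Matrix.isUnit_nonsing_inv_det Pz hPdet
  · have hMA : Mt = (Pz⁻¹).map (Int.castRingHom ℝ) := by
      have h1 : Pz.map (Int.castRingHom ℝ) * (Pz⁻¹).map (Int.castRingHom ℝ) = 1 := by
        rw [← Matrix.map_mul, Matrix.mul_nonsing_inv Pz hPdet]
        ext a b
        simp [Matrix.one_apply]
      calc Mt = Mt * (Pz.map (Int.castRingHom ℝ) * (Pz⁻¹).map (Int.castRingHom ℝ)) := by
            rw [h1, Matrix.mul_one]
        _ = (Mt * Pz.map (Int.castRingHom ℝ)) * (Pz⁻¹).map (Int.castRingHom ℝ) := by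
            rw [Matrix.mul_assoc]
        _ = _ := by rw [hMP, Matrix.one_mul]
    have hMx : ∀ x i, M x i = ∑ j, ((Pz⁻¹ i j : ℤ) : ℝ) * x j := by
      intro x i
      have h1 : M x = Mt.mulVec x := by rw [hMt, LinearMap.toMatrix'_mulVec]
      rw [h1, hMA]
      rfl
    ext x
    rw [hKM, mem_ofPred_eq, Tx, mem_ofPred_eq]
    simp only [Finset.sum_add_distrib, Finset.sum_const, Finset.card_univ,
      Fintype.card_fin, nsmul_eq_mul, mul_one]
    simp only [hMx]
    constructor
    · rintro ⟨h1, h2⟩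
      exact ⟨fun i => by linarith [h1 i], by linarith⟩
    · rintro ⟨h1, h2⟩
      exact ⟨fun i => by linarith [h1 i], by linarith⟩

end Pool.Agent.H912R3.Ehr
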