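import Pool.Agent.H912R3.Ehr.Lim

/-!
# Equality in Ehrhart's volume inequality: leading exponents for general orders
-/

set_option autoImplicit false
set_option linter.unusedSectionVars false

open MvPolynomial
open scoped Pointwise

namespace Pool.Agent.H912R3.Ehr

variable {d : ℕ} {F : Type} [Field F] {Γ : Type} [AddCommMonoid Γ] [LinearOrder Γ]
  [IsOrderedCancelAddMonoid Γ]

/-- `l` is the leading exponent of `s` for the order given by `Ψ` -/
def Top (Ψ : (Fin d →₀ ℕ) →+ Γ) (s : MvPolynomial (Fin d) F) (l : Fin d →₀ ℕ) : Prop :=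
  l ∈ s.support ∧ ∀ m ∈ s.support, Ψ m ≤ Ψ l

theorem Top.mul {Ψ : (Fin d →₀ ℕ) →+ Γ} (hΨ : Function.Injective Ψ)
    {s s' : MvPolynomial (Fin d) F} {l l' : Fin d →₀ ℕ} (h : Top Ψ s l) (h' : Top Ψ s' l') :
    Top Ψ (s * s') (l + l') := by
  classical
  constructor
  · rw [mem_support_iff, coeff_mul, Finset.sum_eq_single (l, l')]
    · exact mul_ne_zero (mem_support_iff.1 h.1) (mem_support_iff.1 h'.1)
    · intro x hx hne
      by_contra hcon
      have h1 : x.1 ∈ s.support := mem_support_iff.2 fun h0 => hcon (by rw [h0, zero_mul])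
      have h2 : x.2 ∈ s'.support := mem_support_iff.2 fun h0 => hcon (by rw [h0, mul_zero])
      rw [Finset.HasAntidiagonal.mem_antidiagonal] at hx
      have h3 := h.2 _ h1
      have h4 := h'.2 _ h2
      have h5 : Ψ x.1 + Ψ x.2 = Ψ l + Ψ l' := by rw [← map_add, ← map_add, hx]
      have h6 : Ψ x.1 = Ψ l := by
        refine le_antisymm h3 ?_
        by_contra hlt
        push Not at hlt
        exact absurd h5 (add_lt_add_of_lt_of_le hlt h4).ne
      have h7 : Ψ x.2 = Ψ l' := by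
        rw [h6] at h5
        exact add_left_cancel h5
      exact hne (Prod.ext (hΨ h6) (hΨ h7))
    · intro h0
      exact (h0 (by rw [Finset.HasAntidiagonal.mem_antidiagonal])).elim
  · intro m hm
    have h1 := support_mul s s' hm
    obtain ⟨x, hx, y, hy, rfl⟩ := Finset.mem_add.1 h1
    rw [map_add, map_add]
    exact add_le_add (h.2 x hx) (h'.2 y hy)

theorem Top.one (Ψ : (Fin d →₀ ℕ) →+ Γ) : Top Ψ (1 : MvPolynomial (Fin d) F) 0 := by
  classical
  constructor
  · rw [mem_support_iff, coeff_one, if_pos rfl]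
    exact one_ne_zero
  · intro m hm
    have h1 : m = 0 := by
      rw [mem_support_iff, coeff_one] at hm
      by_contra h
      exact hm (if_neg fun h' => h h'.symm)
    rw [h1]

theorem Top.pow {Ψ : (Fin d →₀ ℕ) →+ Γ} (hΨ : Function.Injective Ψ)
    {s : MvPolynomial (Fin d) F} {l : Fin d →₀ ℕ} (h : Top Ψ s l) (a : ℕ) :
    Top Ψ (s ^ a) (a • l) := by
  induction a with
  | zero => simpa using Top.one Ψ
  | succ a ih =>
    rw [pow_succ, succ_nsmul]
    exact ih.mul hΨ h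

theorem exists_top (Ψ : (Fin d →₀ ℕ) →+ Γ) {s : MvPolynomial (Fin d) F} (hs : s ≠ 0) :
    ∃ l, Top Ψ s l := by
  have h1 : s.support.Nonempty := by
    rw [Finset.nonempty_iff_ne_empty]
    intro h
    exact hs (support_eq_empty.1 h)
  obtain ⟨l, hl, h2⟩ := s.support.exists_max_image Ψ h1
  exact ⟨l, hl, h2⟩

theorem count' (Ψ : (Fin d →₀ ℕ) →+ Γ) (A : Finset (Fin d →₀ ℕ)) (j : ℕ)
    (D : Finset (Fin d →₀ ℕ))
    (hD : ∀ s : MvPolynomial (Fin d) F, s.support ⊆ A → Van j s → ∀ l, Top Ψ s l → l ∈ D) :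
    A.card ≤ D.card + (low d j).card := by
  classical
  by_contra hcon
  push Not at hcon
  let P : (A → F) →ₗ[F] MvPolynomial (Fin d) F :=
    Fintype.linearCombination F (fun l : A => (monomial (l : Fin d →₀ ℕ) (1 : F)))
  have hP : ∀ v : A → F, P v = ∑ l : A, monomial (l : Fin d →₀ ℕ) (v l) := by
    intro v
    rw [Fintype.linearCombination_apply]
    refine Finset.sum_congr rfl fun l _ => ?_
    rw [smul_monomial, smul_eq_mul, mul_one]
  have hPc : ∀ (v : A → F) (l : A), coeff (l : Fin d →₀ ℕ) (P v) = v l := by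
    intro v l
    rw [hP, coeff_sum, Finset.sum_eq_single l]
    · rw [coeff_monomial, if_pos rfl]
    · intro l' _ hl'
      rw [coeff_monomial, if_neg]
      exact fun h => hl' (Subtype.ext h)
    · intro h; exact absurd (Finset.mem_univ _) h
  have hPs : ∀ (v : A → F), (P v).support ⊆ A := by
    intro v m hm
    by_contra hmA
    rw [mem_support_iff] at hm
    apply hm
    rw [hP, coeff_sum]
    refine Finset.sum_eq_zero fun l _ => ?_
    rw [coeff_monomial, if_neg]
    intro h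
    exact hmA (h ▸ l.2)
  let L : (A → F) →ₗ[F] ((D → F) × (low d j → F)) :=
    LinearMap.prod
      (LinearMap.pi fun m : D => (lcoeff F (m : Fin d →₀ ℕ)).comp P)
      (LinearMap.pi fun m : low d j => (lcoeff F (m : Fin d →₀ ℕ)).comp (tau.toLinearMap.comp P))
  have hrank : Module.finrank F ((D → F) × (low d j → F)) < Module.finrank F (A → F) := by
    rw [Module.finrank_prod, Module.finrank_fintype_fun_eq_card,
      Module.finrank_fintype_fun_eq_card, Module.finrank_fintype_fun_eq_card,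
      Fintype.card_coe, Fintype.card_coe, Fintype.card_coe]
    exact hcon
  have hker := LinearMap.ker_ne_bot_of_finrank_lt (f := L) hrank
  obtain ⟨v, hv, hv0⟩ := (Submodule.ne_bot_iff _).1 hker
  rw [LinearMap.mem_ker] at hv
  have h1 : ∀ m ∈ D, coeff m (P v) = 0 := by
    intro m hm
    have := congrFun (congrArg Prod.fst hv) ⟨m, hm⟩
    exact this
  have h2 : Van j (P v) := by
    intro m hm
    have := congrFun (congrArg Prod.snd hv) ⟨m, mem_low.2 hm⟩
    exact this
  have hne : P v ≠ 0 := by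
    intro h
    apply hv0
    funext l
    rw [← hPc v l, h, coeff_zero]
    rfl
  obtain ⟨l, hl⟩ := exists_top Ψ hne
  exact (mem_support_iff.1 hl.1) (h1 _ (hD _ (hPs v) h2 l hl))

/-- the translate of `K` by `(B, …, B)` -/
def shift (K : Set (Fin d → ℝ)) (B : ℕ) : Set (Fin d → ℝ) := {y | (y - fun _ => (B : ℝ)) ∈ K}

theorem shift_convex {K : Set (Fin d → ℝ)} (hK : Convex ℝ K) (B : ℕ) : Convex ℝ (shift K B) := by
  intro x hx y hy p r hp hr hpr
  show (p • x + r • y) - (fun _ => (B : ℝ)) ∈ K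
  have h1 := hK hx hy hp hr hpr
  convert h1 using 1
  funext i
  simp only [Pi.sub_apply, Pi.smul_apply, Pi.add_apply, smul_eq_mul]
  have : (B : ℝ) = p * B + r * B := by rw [← add_mul, hpr, one_mul]
  linear_combination (-1 : ℝ) * this

theorem shift_nonempty {K : Set (Fin d → ℝ)} (hK : K.Nonempty) (B : ℕ) : (shift K B).Nonempty := by
  obtain ⟨x, hx⟩ := hK
  refine ⟨x + fun _ => (B : ℝ), ?_⟩
  show x + (fun _ => (B : ℝ)) - (fun _ => (B : ℝ)) ∈ K
  rwa [add_sub_cancel_right]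

theorem supp_iff {K : Set (Fin d → ℝ)} {B k : ℕ} (hk : 1 ≤ k) {s : MvPolynomial (Fin d) F} :
    Supp (shift K B) k s ↔ ∀ m ∈ s.support, pt k B m ∈ K := by
  have hk' : (k : ℝ) ≠ 0 := by positivity
  unfold Supp
  refine forall₂_congr fun m _ => ?_
  rw [Set.mem_smul_set_iff_inv_smul_mem₀ hk']
  rfl

/-- the achievable pairs (exponent, order of vanishing), normalised -/
def Ach (Ψ : (Fin d →₀ ℕ) →+ Γ) (K : Set (Fin d → ℝ)) (B : ℕ) : Set ((Fin d → ℝ) × ℝ) :=
  {x | ∃ k : ℕ, 1 ≤ k ∧ ∃ (l : Fin d →₀ ℕ) (j : ℕ) (s : MvPolynomial (Fin d) (ZMod 2)),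
    Top Ψ s l ∧ Supp (shift K B) k s ∧ Van j s ∧ x.1 = pt k B l ∧ x.2 ≤ (j : ℝ) / k}

theorem Ach.comb {Ψ : (Fin d →₀ ℕ) →+ Γ} (hΨ : Function.Injective Ψ) {K : Set (Fin d → ℝ)}
    (hK : Convex ℝ K) (hKn : K.Nonempty) {B : ℕ} {x x' : (Fin d → ℝ) × ℝ} (hx : x ∈ Ach Ψ K B)
    (hx' : x' ∈ Ach Ψ K B) (a b : ℕ) (hab : 1 ≤ a + b) :
    ((a : ℝ) / (a + b : ℕ)) • x + ((b : ℝ) / (a + b : ℕ)) • x' ∈ Ach Ψ K B := by
  obtain ⟨k, hk, l, j, s, hT, hS, hV, h1, h2⟩ := hx
  obtain ⟨k', hk', l', j', s', hT', hS', hV', h1', h2'⟩ := hx'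
  have hk0 : (0 : ℝ) < k := by positivity
  have hk0' : (0 : ℝ) < k' := by positivity
  have hab0 : (0 : ℝ) < (a + b : ℕ) := by exact_mod_cast hab
  refine ⟨(a + b) * k * k', ?_, (a * k') • l + (b * k) • l', a * k' * j + b * k * j',
    s ^ (a * k') * s' ^ (b * k), ?_, ?_, ?_, ?_, ?_⟩
  · exact Nat.mul_pos (Nat.mul_pos hab hk) hk'
  · exact (hT.pow hΨ _).mul hΨ (hT'.pow hΨ _)
  · have h3 := (hS.pow (shift_convex hK B) (shift_nonempty hKn B) (a * k')).mul (shift_convex hK B)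
      (hS'.pow (shift_convex hK B) (shift_nonempty hKn B) (b * k))
    have e : a * k' * k + b * k * k' = (a + b) * k * k' := by ring
    rwa [e] at h3
  · exact (hV.pow _).mul (hV'.pow _)
  · funext i
    simp only [Prod.fst_add, Prod.smul_fst, h1, h1', pt, Pi.add_apply, Pi.smul_apply, Pi.sub_apply,
      smul_eq_mul, toR, Finsupp.add_apply, Finsupp.smul_apply]
    push_cast at hab0 ⊢
    field_simp
    ring
  · simp only [Prod.snd_add, Prod.smul_snd, smul_eq_mul]
    have h3 : (a : ℝ) / (a + b : ℕ) * x.2 ≤ (a : ℝ) / (a + b : ℕ) * ((j : ℝ) / k) :=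
      mul_le_mul_of_nonneg_left h2 (by positivity)
    have h4 : (b : ℝ) / (a + b : ℕ) * x'.2 ≤ (b : ℝ) / (a + b : ℕ) * ((j' : ℝ) / k') :=
      mul_le_mul_of_nonneg_left h2' (by positivity)
    have h5 : (((a * k' * j + b * k * j' : ℕ) : ℝ)) / (((a + b) * k * k' : ℕ) : ℝ) =
        (a : ℝ) / (a + b : ℕ) * ((j : ℝ) / k) + (b : ℝ) / (a + b : ℕ) * ((j' : ℝ) / k') := by
      push_cast at hab0 ⊢
      field_simp
    rw [h5]
    exact add_le_add h3 h4

end Pool.Agent.H912R3.Ehr
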